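import Pool.Agent.H75.SG.Low
import Pool.Agent.H75.SE.Fin

/-! # The final steps -/

set_option autoImplicit false

open UpperHalfPlane MeasureTheory Metric Filter Set ModularGroup CongruenceSubgroup
open scoped MatrixGroups ENNReal Modular Topology NNReal ComplexConjugate

namespace Pool.Agent.H75.SG

open Pool.Agent.H369R2 Pool.Agent.N799.DT Pool.Agent.N799.DT.OrthAux Pool.Agent.H75.SE

noncomputable section

variable {N : ℕ} {t : ℝ}

/-- the main term and its simplified form -/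
lemma MT_le [NeZero N] {T : ℝ} (hT : 1 ≤ T) : |MT N (1 / T) - 12 * T / idx N| ≤ 24 := by
  have hT0 : 0 < T := by linarith
  have hi := idx_ge (N := N)
  have hi0 := idx_pos (N := N)
  have e1 : MT N (1 / T) - 12 * T / idx N =
      -(12 / idx N * ((1 - Real.exp (-(2 * (1 / T)))) * T)) := by
    unfold MT
    field_simp
    ring
  have e2 : 0 ≤ 1 - Real.exp (-(2 * (1 / T))) := by
    have h0 : 0 < 1 / T := by positivity
    have : Real.exp (-(2 * (1 / T))) ≤ 1 := Real.exp_le_one_iff.2 (by linarith)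
    linarith
  have e3 : (1 - Real.exp (-(2 * (1 / T)))) * T ≤ 2 := by
    have := Real.add_one_le_exp (-(2 * (1 / T)))
    calc (1 - Real.exp (-(2 * (1 / T)))) * T ≤ (2 * (1 / T)) * T := by
          gcongr
          linarith
      _ = 2 := by field_simp
  rw [e1, abs_neg, abs_of_nonneg (by positivity)]
  have e4 : 12 / idx N ≤ 12 := div_le_self (by norm_num) hi
  calc 12 / idx N * ((1 - Real.exp (-(2 * (1 / T)))) * T) ≤ 12 / idx N * 2 := by gcongr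
    _ ≤ 12 * 2 := by gcongr
    _ = 24 := by norm_num

/-- a weak upper bound excludes eigenfunctions of small eigenvalue which do not vanish at `p` -/
lemma weak_contra' [NeZero N] (p : ℍ) {ν₀ : ℝ} (hν₀ : 0 ≤ ν₀)
    (h : ∀ ε : ℝ, 0 < ε → ∃ᶠ T : ℝ in atTop,
      DZ N 2 (1 / T) p p ≤ 12 * T / idx N + T ^ (2 * ν₀ + ε))
    {u : LW N} {ν : ℝ} (hν : ν₀ < ν) (hν' : ν ≤ 1 / 2)
    (hmv : ∀ R : ℝ, 0 < R → ∀ z, Av R (u : ℍ → ℂ) z = (lam ν R : ℂ) * (u : ℍ → ℂ) z)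
    (hI : (u : ℍ → ℂ) p = 1) (h0 : inner ℂ (one N) u = 0) : False := by
  have hν0 : 0 < ν := lt_of_le_of_lt hν₀ hν
  obtain ⟨c, hc, hlow⟩ := bessel_low' p hν0.le hν' hmv hI h0
  set δ : ℝ := ν - ν₀ with hδ
  have hδ0 : 0 < δ := by rw [hδ]; linarith
  -- large `T`
  have hev : ∀ᶠ T : ℝ in atTop, 1 ≤ T ∧ 25 / c < T ^ δ :=
    (eventually_ge_atTop 1).and ((tendsto_rpow_atTop hδ0).eventually_gt_atTop (25 / c))
  obtain ⟨T, h1, hT, hTδ⟩ := ((h δ hδ0).and_eventually hev).exists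
  have hT0 : 0 < T := by linarith
  have h2 := hlow (1 / T) (by positivity) (by rw [div_le_one hT0]; exact hT)
  have h3 : (1 / T) ^ (-(2 * ν)) = T ^ δ * T ^ (2 * ν₀ + δ) := by
    rw [one_div, Real.inv_rpow hT0.le, Real.rpow_neg hT0.le, inv_inv, ← Real.rpow_add hT0]
    congr 1
    rw [hδ]
    ring
  rw [h3] at h2
  unfold az at h2
  have h4 := (abs_le.1 (MT_le (N := N) hT)).1
  have hP : 1 ≤ T ^ (2 * ν₀ + δ) := Real.one_le_rpow hT (by positivity)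
  have h5 : c * (T ^ δ * T ^ (2 * ν₀ + δ)) ≤ 24 + T ^ (2 * ν₀ + δ) := by linarith
  have h6 : 25 < c * T ^ δ := by rwa [div_lt_iff₀' hc] at hTδ
  nlinarith

/-- the vector of an eigenfunction -/
lemma exists_vec [NeZero N] {g : ℂ → ℂ} {μ : ℝ} (hμ0 : 0 < μ) (hμ1 : μ < 1 / 4)
    (g1 : ContDiffOn ℝ (⊤ : ℕ∞) g {w : ℂ | 0 < w.im})
    (g2 : ∀ γ ∈ Gamma N, ∀ z : ℍ, g ((γ • z : ℍ) : ℂ) = g (z : ℂ))
    (g3 : ∀ z : ℍ, -((z.im : ℂ) ^ 2) *
      (deriv (fun s : ℝ => deriv (fun t : ℝ => g ((t : ℂ) + (z.im : ℂ) * Complex.I)) s) z.re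
        + deriv (fun s : ℝ => deriv (fun t : ℝ => g ((z.re : ℂ) + (t : ℂ) * Complex.I)) s) z.im)
      = (μ : ℂ) * g (z : ℂ))
    (g4 : ∀ γ : SL(2, ℤ), IntegrableOn (fun w : ℂ => ‖g w‖ ^ 2 / w.im ^ 2)
      ((fun z : ℍ => ((γ • z : ℍ) : ℂ)) '' ModularGroup.fd)) {p : ℍ} (hp : g p ≠ 0) :
    ∃ u : LW N, (∀ R : ℝ, 0 < R → ∀ z,
      Av R (u : ℍ → ℂ) z = (lam (√(1 / 4 - μ)) R : ℂ) * (u : ℍ → ℂ) z) ∧
      (u : ℍ → ℂ) p = 1 ∧ inner ℂ (one N) u = 0 := by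
  have hN : 0 < N := Nat.pos_of_ne_zero (NeZero.ne N)
  set ν : ℝ := √(1 / 4 - μ) with hν
  have hν0 : 0 < ν := Real.sqrt_pos.2 (by linarith)
  have hνsq : ν ^ 2 = 1 / 4 - μ := Real.sq_sqrt (by linarith)
  have hν' : ν < 1 / 2 := by
    rw [hν, Real.sqrt_lt' (by norm_num)]
    linarith
  have hE : IsEigen (Gamma N) ν g := by
    refine ⟨g1, g2, fun z => ?_, g4⟩
    rw [hνsq, g3 z]
    congr 2
    ring
  set u₀ : LW N := hE.toLW hN le_rfl with hu₀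
  have hmem : u₀ ∈ ES N (Gamma N) ν := hE.mem_ES mv_all hN le_rfl
  have hI0 : (u₀ : ℍ → ℂ) p ≠ 0 := hp
  set u : LW N := ((u₀ : ℍ → ℂ) p)⁻¹ • u₀ with hu
  have humem : u ∈ ES N (Gamma N) ν := Submodule.smul_mem _ _ hmem
  have huI : (u : ℍ → ℂ) p = 1 := by
    have : (u : ℍ → ℂ) p = ((u₀ : ℍ → ℂ) p)⁻¹ * (u₀ : ℍ → ℂ) p := rfl
    rw [this, inv_mul_cancel₀ hI0]
  have hone : one N ∈ ES N (Gamma N) (1 / 2) := by
    refine ⟨fun γ hγ z => LW.inv (one N) γ hγ z, fun R hR z => ?_⟩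
    have h1 := congrArg (fun v : LW N => (v : ℍ → ℂ) z) (LA_one (N := N) hR)
    simp only [LA_coe] at h1
    rw [lam_half hR]
    simpa using h1
  have horth : inner ℂ (one N) u = 0 :=
    ES_orth orth lam_ne hN (Gamma N) (by norm_num) hν0 le_rfl hν'.le hν'.ne' hone humem
  exact ⟨u, humem.2, huI, horth⟩

/-- the level-by-level converse -/
theorem gap_of_weak [NeZero N] {ν₀ : ℝ} (hν₀ : 0 ≤ ν₀)
    (h : ∀ (p : ℍ) (ε : ℝ), 0 < ε → ∃ᶠ T : ℝ in atTop,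
      DZ N 2 (1 / T) p p ≤ 12 * T / idx N + T ^ (2 * ν₀ + ε)) : LGap N ν₀ := by
  intro f μ hμ0 hμ1 hsm hinv heq hint z
  by_contra hz
  have hμ14 : μ < 1 / 4 := by nlinarith [sq_nonneg ν₀]
  obtain ⟨u, hmv, hI, h0⟩ := exists_vec (N := N) hμ0 hμ14 hsm hinv heq hint hz
  have hν : ν₀ < √(1 / 4 - μ) := by
    rw [Real.lt_sqrt hν₀]
    linarith
  have hν' : √(1 / 4 - μ) ≤ 1 / 2 := by
    rw [Real.sqrt_le_left (by norm_num)]
    linarith
  exact weak_contra' z hν₀ (h z) hν hν' hmv hI h0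

open Pool.Agent.TH652.Sel Pool.Agent.TH300S in
/-- the converse for all levels, with one base point -/
theorem gap_of_weak_I {ν₀ : ℝ} (hν₀ : 0 ≤ ν₀)
    (h : ∀ (N : ℕ) [NeZero N] (ε : ℝ), 0 < ε → ∃ᶠ T : ℝ in atTop,
      DZ N 2 (1 / T) I I ≤ 12 * T / idx N + T ^ (2 * ν₀ + ε)) (N : ℕ) [NeZero N] : LGap N ν₀ := by
  intro f μ hμ0 hμ1 hsm hinv heq hint z
  by_contra hz
  have hN : 0 < N := Nat.pos_of_ne_zero (NeZero.ne N)
  have hμ14 : μ < 1 / 4 := by nlinarith [sq_nonneg ν₀]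
  have hF : (fun z : ℍ => f z) ∈ congspace μ :=
    ⟨N, hN, f, ⟨hsm, hinv, heq, hint⟩, fun z => rfl⟩
  obtain ⟨x, y, hy, hxy⟩ := exists_rat hsm.continuousOn hz
  have hy' : (0 : ℝ) < (y : ℝ) := by exact_mod_cast hy
  obtain ⟨M, hM, g, ⟨g1, g2, g3, g4⟩, hg⟩ := cong_mv hF hy' ⟨y, rfl⟩ (r := (x : ℝ)) ⟨x, rfl⟩
  have hNZ : NeZero M := ⟨hM.ne'⟩
  have hI0 : g (I : ℍ) ≠ 0 := by
    rw [← hg]
    simp only [coe_mv]
    have h2 : ((y : ℝ) : ℂ) * ((I : ℍ) : ℂ) + ((x : ℝ) : ℂ) =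
        ((x : ℝ) : ℂ) + ((y : ℝ) : ℂ) * Complex.I := by
      rw [add_comm]
      rfl
    rw [h2]
    exact hxy
  obtain ⟨u, hmv, hI, h0⟩ := exists_vec (N := M) hμ0 hμ14 g1 g2 g3 g4 hI0
  have hν : ν₀ < √(1 / 4 - μ) := by
    rw [Real.lt_sqrt hν₀]
    linarith
  have hν' : √(1 / 4 - μ) ≤ 1 / 2 := by
    rw [Real.sqrt_le_left (by norm_num)]
    linarith
  exact weak_contra' I hν₀ (h M) hν hν' hmv hI h0

/-- the constant -/
def Cz (p : ℍ) : ℝ := √(αz p) + 5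

/-- the two-point estimate -/
theorem three_z {N : ℕ} [NeZero N] {ν₀ : ℝ} (hν₀ : 0 ≤ ν₀)
    (h : ∀ (p : ℍ) (t : ℝ), 0 < t → t ≤ 1 → TwoZ N ν₀ t p) (p q : ℍ) {T : ℝ} (hT : 1 ≤ T) :
    |DZ N 2 (1 / T) p q - 12 * T / idx N| ≤
      Cz p * Cz q * (T ^ (2 * ν₀) * (1 + Real.log T) ^ 2) := by
  have hT0 : 0 < T := by linarith
  have hL : 0 ≤ Real.log T := Real.log_nonneg hT
  have h1 := az_le' hν₀ p (h p) hT
  have h2 := az_le' hν₀ q (h q) hT
  set X : ℝ := T ^ (2 * ν₀) * (1 + Real.log T) ^ 2 with hX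
  have hX1 : 1 ≤ X := by
    have e1 : 1 ≤ T ^ (2 * ν₀) := Real.one_le_rpow hT (by positivity)
    have e2 : 1 ≤ (1 + Real.log T) ^ 2 := by nlinarith
    calc (1 : ℝ) = 1 * 1 := by ring
      _ ≤ X := by rw [hX]; gcongr
  have h3 := cross (N := N) (t := 1 / T) (by positivity) p q
  have hp := αz_pos p
  have hq := αz_pos q
  have h4 : |DZ N 2 (1 / T) p q - MT N (1 / T)| ≤ √(αz p) * √(αz q) * X := by
    apply abs_le_of_sq_le_sq
    · have e1 : (√(αz p) * √(αz q) * X) ^ 2 = (αz p * X) * (αz q * X) := by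
        rw [mul_pow, mul_pow, Real.sq_sqrt hp.le, Real.sq_sqrt hq.le]
        ring
      rw [e1]
      refine h3.trans ?_
      have := az_nonneg (N := N) (t := 1 / T) (by positivity) q
      gcongr
    · positivity
  have h5 := MT_le (N := N) hT
  have h6 : √(αz p) * √(αz q) * X + 24 ≤ Cz p * Cz q * X := by
    unfold Cz
    have s1 := Real.sqrt_nonneg (αz p)
    have s2 := Real.sqrt_nonneg (αz q)
    nlinarith [mul_nonneg s1 (by linarith : 0 ≤ X), mul_nonneg s2 (by linarith : 0 ≤ X)]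
  calc |DZ N 2 (1 / T) p q - 12 * T / idx N| ≤ |DZ N 2 (1 / T) p q - MT N (1 / T)| +
        |MT N (1 / T) - 12 * T / idx N| := abs_sub_le _ _ _
    _ ≤ Cz p * Cz q * X := by linarith

/-- logarithms are small -/
lemma log_sq_le' {C b ε : ℝ} (hε : 0 < ε) :
    ∀ᶠ T : ℝ in atTop, C * (T ^ b * (1 + Real.log T) ^ 2) ≤ T ^ (b + ε) := by
  filter_upwards [log_sq_le (C := C) hε, eventually_gt_atTop 0] with T h1 h2
  rw [Real.rpow_add h2]
  have := Real.rpow_pos_of_pos h2 b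
  calc C * (T ^ b * (1 + Real.log T) ^ 2) = T ^ b * (C * (1 + Real.log T) ^ 2) := by ring
    _ ≤ T ^ b * T ^ ε := by gcongr

lemma dz_one_div {T : ℝ} (p q : ℍ) (A : SL(2, ℤ)) :
    dz 2 (1 / T) p q A = Real.exp (-(mz p (A • q) / T)) / mz p (A • q) := by
  unfold dz wk
  have := mz_pos p (A • q)
  rw [show -(1 / T * mz p (A • q)) = -(mz p (A • q) / T) by ring]
  field_simp

/-- the right hand side as a sum -/
lemma tsum_NU (ht : 0 < t) (p : ℍ) :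
    ∑' γ : Gamma N, Real.exp (-(t * mz p ((γ : SL(2, ℤ)) • p))) *
      (t ^ 2 / mz p ((γ : SL(2, ℤ)) • p) + t / mz p ((γ : SL(2, ℤ)) • p) ^ 2 +
        1 / mz p ((γ : SL(2, ℤ)) • p) ^ 3 + 1 / (4 * mz p ((γ : SL(2, ℤ)) • p)) -
        (t ^ 2 * mz p ((γ : SL(2, ℤ)) • p) - t) / 4) = NU N t p := by
  have h (k : ℕ) := (dz_summable (N := N) k ht p p)
  have e : ∀ A : SL(2, ℤ), Real.exp (-(t * mz p (A • p))) *
      (t ^ 2 / mz p (A • p) + t / mz p (A • p) ^ 2 + 1 / mz p (A • p) ^ 3 +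
        1 / (4 * mz p (A • p)) - (t ^ 2 * mz p (A • p) - t) / 4) =
      t ^ 2 * dz 2 t p p A + t * dz 1 t p p A + dz 0 t p p A + 1 / 4 * dz 2 t p p A -
        (t ^ 2 / 4 * dz 4 t p p A - t / 4 * dz 3 t p p A) := by
    intro A
    unfold dz wk
    have := mz_pos p (A • p)
    field_simp
  simp only [e]
  have s4 := (h 4).mul_left (t ^ 2 / 4)
  have s3 := (h 3).mul_left (t / 4)
  have s2 := (h 2).mul_left (t ^ 2)
  have s1 := (h 1).mul_left t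
  have s2' := (h 2).mul_left (1 / 4)
  have s0 := h 0
  rw [(((s2.add s1).add s0).add s2').tsum_sub (s4.sub s3), s4.tsum_sub s3,
    ((s2.add s1).add s0).tsum_add s2', (s2.add s1).tsum_add s0, s2.tsum_add s1]
  simp only [tsum_mul_left]
  unfold NU DZ
  ring

/-- the left hand side as a sum -/
lemma tsum_DZ2 (p q : ℍ) :
    ∑' γ : Gamma N, Real.exp (-(t * mz p ((γ : SL(2, ℤ)) • q))) / mz p ((γ : SL(2, ℤ)) • q) =
      DZ N 2 t p q := by
  unfold DZ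
  congr 1
  ext γ
  unfold dz wk
  have := mz_pos p ((γ : SL(2, ℤ)) • q)
  field_simp

lemma mz_cosh (z w : ℍ) : mz z w = 2 * Real.cosh (dist z w / 2) := by
  have h1 := mz_sq z w
  have h2 := Real.cosh_two_mul (dist z w / 2)
  have h3 := Real.cosh_sq (dist z w / 2)
  have h4 := mz_pos z w
  have h5 := Real.cosh_pos (dist z w / 2)
  rw [mul_div_cancel₀ _ (two_ne_zero)] at h2
  have h6 : mz z w ^ 2 = (2 * Real.cosh (dist z w / 2)) ^ 2 := by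
    rw [h1, h2]
    linarith
  exact (sq_eq_sq₀ h4.le (by positivity)).1 h6

end

end Pool.Agent.H75.SG
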