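import Pool.Agent.H75.SG.Vec

/-! # The spectral bound, with a threshold -/

set_option autoImplicit false

open UpperHalfPlane MeasureTheory Metric ModularGroup CongruenceSubgroup Filter Set
open scoped MatrixGroups ENNReal Modular Topology NNReal ComplexConjugate

namespace Pool.Agent.H75.SG

open Pool.Agent.H369R2 Pool.Agent.N799.DT Pool.Agent.N799.DT.OrthAux Pool.Agent.H75.SE

noncomputable section

variable {N : ℕ} [NeZero N]

/-- no eigenvalue of `Γ(N)` between `0` and `1/4 - ν₀²` -/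
def LGap (N : ℕ) (ν₀ : ℝ) : Prop :=
    ∀ (f : ℂ → ℂ) (μ : ℝ), 0 < μ → μ < 1 / 4 - ν₀ ^ 2 →
      ContDiffOn ℝ (⊤ : ℕ∞) f {w : ℂ | 0 < w.im} →
      (∀ γ ∈ Gamma N, ∀ z : UpperHalfPlane,
        f ((γ • z : UpperHalfPlane) : ℂ) = f (z : ℂ)) →
      (∀ z : UpperHalfPlane,
        -((z.im : ℂ) ^ 2) *
          (deriv (fun s : ℝ => deriv (fun t : ℝ =>
              f ((t : ℂ) + (z.im : ℂ) * Complex.I)) s) z.re
           + deriv (fun s : ℝ => deriv (fun t : ℝ =>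
              f ((z.re : ℂ) + (t : ℂ) * Complex.I)) s) z.im)
          = (μ : ℂ) * f (z : ℂ)) →
      (∀ γ : Matrix.SpecialLinearGroup (Fin 2) ℤ,
        MeasureTheory.IntegrableOn (fun w : ℂ => ‖f w‖ ^ 2 / w.im ^ 2)
          ((fun z : UpperHalfPlane => ((γ • z : UpperHalfPlane) : ℂ)) '' ModularGroup.fd)) →
      ∀ z : UpperHalfPlane, f (z : ℂ) = 0

lemma lam_avg (ν R : ℝ) : lam ν R = Av R (fun w : ℍ => w.im ^ (1 / 2 + ν : ℝ)) I := by
  unfold lam Av
  rw [smul_eq_mul]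

lemma cont_imp (s : ℝ) : Continuous fun w : ℍ => w.im ^ s :=
  continuous_im.rpow_const fun w => Or.inl w.im_pos.ne'

/-- the eigenvalue is an even function -/
lemma lam_neg {R : ℝ} (hR : 0 < R) (ν : ℝ) : lam (-ν) R = lam ν R := by
  have h1 : Lap ν (Mv.gp (1 / 2 + -ν)) := by
    have h2 := Mv.gp_lap (-ν)
    refine ⟨h2.smooth, fun z => ?_⟩
    have h3 := h2.eq z
    rw [neg_sq] at h3
    exact h3
  have h4 := mv_all ν _ h1 I R hR
  have h5 : (fun w : ℍ => Mv.gp (1 / 2 + -ν) (w : ℂ)) =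
      fun w : ℍ => ((w.im ^ (1 / 2 + -ν : ℝ) : ℝ) : ℂ) := rfl
  rw [h5, Av_ofReal, ← lam_avg] at h4
  have h6 : Mv.gp (1 / 2 + -ν) ((I : ℍ) : ℂ) = 1 := by
    have : Mv.gp (1 / 2 + -ν) ((I : ℍ) : ℂ) = (((I : ℍ).im ^ (1 / 2 + -ν : ℝ) : ℝ) : ℂ) := rfl
    rw [this, I_im, Real.one_rpow]
    simp
  rw [h6, mul_one] at h4
  exact_mod_cast h4

/-- monotonicity of the eigenvalue -/
lemma lam_mono {R : ℝ} (hR : 0 < R) {ν ν₀ : ℝ} (hν : 0 ≤ ν) (h : ν ≤ ν₀) : lam ν R ≤ lam ν₀ R := by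
  rcases eq_or_lt_of_le (hν.trans h) with h0 | h0
  · have : ν = ν₀ := by linarith
    rw [this]
  set a : ℝ := (ν₀ + ν) / (2 * ν₀) with ha
  set b : ℝ := (ν₀ - ν) / (2 * ν₀) with hb
  have ha0 : 0 ≤ a := by positivity
  have hb0 : 0 ≤ b := div_nonneg (by linarith) (by positivity)
  have hab : a + b = 1 := by
    rw [ha, hb]
    field_simp
    ring
  have hpt : ∀ w : ℍ, w.im ^ (1 / 2 + ν : ℝ) ≤
      a * w.im ^ (1 / 2 + ν₀ : ℝ) + b * w.im ^ (1 / 2 + -ν₀ : ℝ) := by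
    intro w
    have hw := w.im_pos
    have h1 := Real.geom_mean_le_arith_mean2_weighted ha0 hb0
      (Real.rpow_nonneg hw.le (1 / 2 + ν₀)) (Real.rpow_nonneg hw.le (1 / 2 + -ν₀)) hab
    rw [← Real.rpow_mul hw.le, ← Real.rpow_mul hw.le, ← Real.rpow_add hw] at h1
    have h2 : (1 / 2 + ν₀) * a + (1 / 2 + -ν₀) * b = 1 / 2 + ν := by
      rw [ha, hb]
      field_simp
      ring
    rw [h2] at h1
    exact h1
  have c1 : Continuous fun w : ℍ => a * w.im ^ (1 / 2 + ν₀ : ℝ) := continuous_const.mul (cont_imp _)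
  have c2 : Continuous fun w : ℍ => b * w.im ^ (1 / 2 + -ν₀ : ℝ) := continuous_const.mul (cont_imp _)
  have h3 := Av_mono (r := R) (p := I) (cont_imp (1 / 2 + ν)) (c1.add c2) fun w _ => hpt w
  rw [← lam_avg] at h3
  have h4 : Av R ((fun w : ℍ => a * w.im ^ (1 / 2 + ν₀ : ℝ)) +
      fun w : ℍ => b * w.im ^ (1 / 2 + -ν₀ : ℝ)) I = a * lam ν₀ R + b * lam (-ν₀) R := by
    rw [lam_avg, lam_avg, ← Av_cmul, ← Av_cmul]
    exact Av_add c1 c2 _
  rw [h4, lam_neg hR] at h3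
  calc lam ν R ≤ a * lam ν₀ R + b * lam ν₀ R := h3
    _ = (a + b) * lam ν₀ R := by ring
    _ = lam ν₀ R := by rw [hab, one_mul]

/-- the derivative of the eigenvalue at radius zero -/
lemma lam_lim (ν : ℝ) : Tendsto (fun r => (lam ν r - 1) / m1 r) (𝓝[>] 0)
    (𝓝 ((ν ^ 2 - 1 / 4) / 2)) := by
  set s : ℝ := 1 / 2 + ν with hs
  have h1 : ∀ᶠ x in 𝓝 (1 : ℝ), HasDerivAt (fun x : ℝ => x ^ s) (s * x ^ (s - 1)) x := by
    filter_upwards [lt_mem_nhds (one_pos : (0 : ℝ) < 1)] with x hx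
    exact Real.hasDerivAt_rpow_const (Or.inl hx.ne')
  have h2 : HasDerivAt (fun x : ℝ => s * x ^ (s - 1)) (s * (s - 1)) 1 := by
    have h3 := (Real.hasDerivAt_rpow_const (x := 1) (p := s - 1) (Or.inl one_ne_zero)).const_mul s
    rw [Real.one_rpow, mul_one] at h3
    exact h3
  have := Av_taylor (X := fun w : ℍ => w.im) continuous_im (p := I) (h := fun x => x ^ s)
    (cont_imp s) (d₁ := s * 1 ^ (s - 1)) (d₂ := s * (s - 1))
    (fun ε hε => by
      obtain ⟨δ, hδ, h⟩ := taylor1 h1 h2 hε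
      refine ⟨δ, hδ, fun x hx => ?_⟩
      rw [I_im] at hx ⊢
      exact h x hx) im_alpha im_beta
  have e : (s * 1 ^ (s - 1) * 0 + s * (s - 1) / 2 * 1 : ℝ) = (ν ^ 2 - 1 / 4) / 2 := by
    rw [hs]
    ring
  rw [e] at this
  refine this.congr fun r => ?_
  rw [I_im, Real.one_rpow, lam_avg]

/-- an eigenfunction of one averaging operator -/
lemma exists_eig' {R : ℝ} (hR : 0 < R) (hρ : rhoE R ≠ ∞) {ρ : ℝ} (hρρ : (rhoE R).toReal ≤ ρ)
    (hne : ∃ u ∈ LZ N, ρ * ‖u‖ ^ 2 < (inner ℂ (LA N R hR u) u).re) :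
    ∃ l : ℝ, ρ < l ∧ EL N R hR l ≠ ⊥ := by
  obtain ⟨l, hl, _, u, hu, hlim⟩ := approx_eig (LA N R hR) (LA_symm hR) (LA_norm_le hR) (LZ N)
    (fun v hv => LA_LZ hR hv) _ (ENNReal.toReal_nonneg.trans hρρ) hne
  have hl0 : 0 < l := lt_of_le_of_lt (ENNReal.toReal_nonneg.trans hρρ) hl
  have hl' : rhoE R < ENNReal.ofReal l :=
    (ENNReal.lt_ofReal_iff_toReal_lt hρ).2 (lt_of_le_of_lt hρρ hl)
  obtain ⟨φ, hφ, hcau⟩ := precompact hR hl' u (fun n => (hu n).2.le) hlim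
  have hlim' := hlim.comp hφ.tendsto_atTop
  obtain ⟨f, hf⟩ := limit_exists hR hl0.ne' (fun n => u (φ n)) hcau hlim'
  refine ⟨l, hl, ?_⟩
  -- the norm of the limit
  have hnf : ‖f‖ = 1 := by
    have h1 : ∀ n, |1 - ‖f‖| ≤ ‖u (φ n) - f‖ := by
      intro n
      rw [← (hu (φ n)).2]
      exact abs_norm_sub_norm_le _ _
    have h2 : |1 - ‖f‖| ≤ 0 := ge_of_tendsto' hf h1
    have h3 := abs_nonpos_iff.1 h2
    linarith
  have hfE : f ∈ EL N R hR l := by
    rw [mem_EL]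
    constructor
    · rw [mem_LZ]
      have h1 : ∀ n, ‖inner ℂ (one N) f‖ ≤ ‖one N‖ * ‖u (φ n) - f‖ := by
        intro n
        have h2 : inner ℂ (one N) f = inner ℂ (one N) (f - u (φ n)) := by
          rw [inner_sub_right, mem_LZ.1 (hu (φ n)).1, sub_zero]
        rw [h2, norm_sub_rev]
        exact norm_inner_le_norm _ _
      have h3 := hf.const_mul ‖one N‖
      rw [mul_zero] at h3
      exact norm_le_zero_iff.1 (ge_of_tendsto' h3 h1)
    · have h1 : ∀ n, ‖LA N R hR f - (l : ℂ) • f‖ ≤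
          ‖u (φ n) - f‖ + |l| * ‖u (φ n) - f‖ + ‖LA N R hR (u (φ n)) - (l : ℂ) • u (φ n)‖ := by
        intro n
        have e : LA N R hR f - (l : ℂ) • f = LA N R hR (f - u (φ n)) - (l : ℂ) • (f - u (φ n)) +
            (LA N R hR (u (φ n)) - (l : ℂ) • u (φ n)) := by
          rw [map_sub, smul_sub]
          abel
        rw [e]
        refine (norm_add_le _ _).trans ?_
        gcongr
        refine (norm_sub_le _ _).trans ?_
        rw [norm_smul, Complex.norm_real, Real.norm_eq_abs, norm_sub_rev (u (φ n)) f]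
        gcongr
        exact LA_norm_le hR _
      have h3 := (hf.add (hf.const_mul |l|)).add hlim'
      rw [mul_zero, add_zero, add_zero] at h3
      have h4 := ge_of_tendsto' h3 h1
      exact sub_eq_zero.1 (norm_le_zero_iff.1 h4)
  intro hbot
  rw [hbot, Submodule.mem_bot] at hfE
  rw [hfE, norm_zero] at hnf
  norm_num at hnf

/-- a simultaneous eigenfunction of all averaging operators -/
theorem exists_simul' {R : ℝ} (hR : 0 < R) (hρ : rhoE R ≠ ∞) {ρ : ℝ}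
    (hρρ : (rhoE R).toReal ≤ ρ)
    (hne : ∃ u ∈ LZ N, ρ * ‖u‖ ^ 2 < (inner ℂ (LA N R hR u) u).re) :
    ∃ f : LW N, f ∈ LZ N ∧ f ≠ 0 ∧ ∃ μ : ℝ → ℝ,
      (∀ r : ℝ, 0 < r → ∀ z, Av r (f : ℍ → ℂ) z = (μ r : ℂ) * (f : ℍ → ℂ) z) ∧
      ρ < μ R := by
  obtain ⟨l, hlρ, hE⟩ := exists_eig' hR hρ hρρ hne
  have hl : rhoE R < ENNReal.ofReal l :=
    (ENNReal.lt_ofReal_iff_toReal_lt hρ).2 (lt_of_le_of_lt hρρ hlρ)
  have hfd := EL_finite (N := N) hR hl
  let P : Submodule ℂ (LW N) → Prop := fun W =>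
    W ≤ EL N R hR l ∧ W ≠ ⊥ ∧ ∀ (r : ℝ) (hr : 0 < r), ∀ u ∈ W, LA N r hr u ∈ W
  have hP : ∃ n : ℕ, ∃ W : Submodule ℂ (LW N), P W ∧ Module.finrank ℂ W = n := by
    refine ⟨_, EL N R hR l, ⟨le_rfl, hE, fun r hr u hu => ?_⟩, rfl⟩
    rw [mem_EL] at hu ⊢
    refine ⟨LA_LZ hr hu.1, ?_⟩
    rw [LA_comm hR hr, hu.2, map_smul]
  classical
  obtain ⟨W, ⟨hW1, hW2, hW3⟩, hWn⟩ := Nat.find_spec hP
  have hmin : ∀ W' : Submodule ℂ (LW N), P W' → Module.finrank ℂ W ≤ Module.finrank ℂ W' := by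
    intro W' hW'
    rw [hWn]
    exact Nat.find_min' hP ⟨W', hW', rfl⟩
  have hWfd : FiniteDimensional ℂ W := Submodule.finiteDimensional_of_le hW1
  have hWnt : Nontrivial W := Submodule.nontrivial_iff_ne_bot.2 hW2
  -- every averaging operator is a scalar on `W`
  have hsc : ∀ (r : ℝ) (hr : 0 < r), ∃ c : ℂ, ∀ u ∈ W, LA N r hr u = c • u := by
    intro r hr
    let T : Module.End ℂ W := (LA N r hr).restrict (hW3 r hr)
    obtain ⟨c, hc⟩ := Module.End.exists_eigenvalue T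
    obtain ⟨v, hv⟩ := hc.exists_hasEigenvector
    refine ⟨c, ?_⟩
    set W' : Submodule ℂ (LW N) := W ⊓ Module.End.eigenspace (LA N r hr) c with hW'
    have hvW' : (v : LW N) ∈ W' := by
      rw [hW', Submodule.mem_inf, Module.End.mem_eigenspace_iff]
      refine ⟨v.2, ?_⟩
      have h1 := hv.apply_eq_smul
      have h2 := congrArg (Subtype.val) h1
      exact h2
    have hPW' : P W' := by
      refine ⟨inf_le_left.trans hW1, ?_, fun r' hr' u hu => ?_⟩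
      · intro hbot
        rw [hbot, Submodule.mem_bot] at hvW'
        exact hv.2 (Subtype.ext hvW')
      · rw [hW', Submodule.mem_inf, Module.End.mem_eigenspace_iff] at hu ⊢
        refine ⟨hW3 r' hr' u hu.1, ?_⟩
        rw [LA_comm hr hr', hu.2, map_smul]
    have hle : W' ≤ W := inf_le_left
    have heq : W' = W := Submodule.eq_of_le_of_finrank_le hle (hmin W' hPW')
    intro u hu
    rw [← heq, hW', Submodule.mem_inf, Module.End.mem_eigenspace_iff] at hu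
    exact hu.2
  obtain ⟨f, hfW, hf0⟩ := Submodule.exists_mem_ne_zero_of_ne_bot hW2
  have hfL := mem_EL.1 (hW1 hfW)
  -- the eigenvalues are real
  have hreal : ∀ (r : ℝ) (hr : 0 < r), ∃ c : ℝ, LA N r hr f = (c : ℂ) • f := by
    intro r hr
    obtain ⟨c, hc⟩ := hsc r hr
    have h1 := hc f hfW
    have h2 := LA_symm hr f f
    rw [h1, inner_smul_left, inner_smul_right] at h2
    have h3 : inner ℂ f f ≠ 0 := inner_self_ne_zero.2 hf0
    have h4 := mul_right_cancel₀ h3 h2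
    refine ⟨c.re, ?_⟩
    rw [h1]
    congr 1
    exact (Complex.conj_eq_iff_re.1 h4).symm
  let μ : ℝ → ℝ := fun r => if hr : 0 < r then (hreal r hr).choose else 0
  have hμ : ∀ (r : ℝ) (hr : 0 < r), LA N r hr f = (μ r : ℂ) • f := by
    intro r hr
    have h1 : μ r = (hreal r hr).choose := dif_pos hr
    rw [h1]
    exact (hreal r hr).choose_spec
  refine ⟨f, hfL.1, hf0, μ, fun r hr z => ?_, ?_⟩
  · have h1 := congrArg (fun v : LW N => (v : ℍ → ℂ) z) (hμ r hr)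
    exact h1
  · have h1 : (μ R : ℂ) • f = (l : ℂ) • f := by rw [← hμ R hR]; exact hfL.2
    have h2 : (μ R : ℂ) = l := smul_left_injective ℂ hf0 h1
    have h3 : μ R = l := by exact_mod_cast h2
    rw [h3]
    exact hlρ

/-- The gap implies the spectral bound for the averaging operators. -/
theorem form_ineq' {ν₀ : ℝ} (hν₀ : 0 ≤ ν₀) (hS : LGap N ν₀) {R : ℝ}
    (hR : 0 < R) {u : LW N} (hu : u ∈ LZ N) :
    (inner ℂ (LA N R hR u) u).re ≤ lam ν₀ R * ‖u‖ ^ 2 := by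
  by_contra hcon
  rw [not_le] at hcon
  have hρ := rhoE_eq hR
  have hρt : (rhoE R).toReal = lam 0 R := by
    rw [hρ, ENNReal.toReal_ofReal (lam_zero_nonneg R)]
  have h0ν : lam 0 R ≤ lam ν₀ R := lam_mono hR le_rfl hν₀
  obtain ⟨f, hfZ, hf0, μ, hμ, hμR'⟩ := exists_simul' (N := N) hR
    (by rw [hρ]; exact ENNReal.ofReal_ne_top) (ρ := lam ν₀ R) (by rw [hρt]; exact h0ν) ⟨u, hu, hcon⟩
  have hfc := LW.cont f
  have hne : ∃ z, (f : ℍ → ℂ) z ≠ 0 := by
    by_contra h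
    push Not at h
    exact hf0 (by ext z; exact h z)
  obtain ⟨z₁, hz₁⟩ := hne
  have hF := smooth_of_eig hfc ⟨z₁, hz₁⟩ hμ
  set F : ℂ → ℂ := fun w => (f : ℍ → ℂ) (ofComplex w) with hFd
  have hFf : ∀ z : ℍ, F z = (f : ℍ → ℂ) z := fun z => by rw [hFd]; simp
  have hFf' : (fun w : ℍ => F w) = (f : ℍ → ℂ) := funext hFf
  -- the Laplacian
  set ℓ : ℍ → ℂ := fun z => (z.im : ℂ) ^ 2 / 2 *
        (fderiv ℝ (fderiv ℝ F) z 1 1 + fderiv ℝ (fderiv ℝ F) z Complex.I Complex.I) with hℓ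
  have hlim : ∀ z : ℍ, Tendsto (fun r : ℝ => ((((μ r - 1) / m1 r : ℝ)) : ℂ) * (f : ℍ → ℂ) z)
      (𝓝[>] 0) (𝓝 (ℓ z)) := by
    intro z
    refine (lap_limit hF z).congr' ?_
    filter_upwards [self_mem_nhdsWithin] with r hr
    rw [hFf', hμ r hr z, hFf z]
    push_cast
    ring
  have hquot : Tendsto (fun r : ℝ => ((((μ r - 1) / m1 r : ℝ)) : ℂ)) (𝓝[>] 0)
      (𝓝 (ℓ z₁ / (f : ℍ → ℂ) z₁)) := by
    have h1 := (hlim z₁).div_const ((f : ℍ → ℂ) z₁)
    refine h1.congr fun r => ?_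
    rw [mul_div_assoc, div_self hz₁, mul_one]
  have hre : Tendsto (fun r : ℝ => (μ r - 1) / m1 r) (𝓝[>] 0)
      (𝓝 (ℓ z₁ / (f : ℍ → ℂ) z₁).re) := by
    have h1 := (Complex.continuous_re.tendsto _).comp hquot
    refine h1.congr fun r => ?_
    simp
  set κ : ℝ := (ℓ z₁ / (f : ℍ → ℂ) z₁).re with hκ
  have hlap : ∀ z : ℍ, ℓ z = (κ : ℂ) * (f : ℍ → ℂ) z := by
    intro z
    have h1 : Tendsto (fun r : ℝ => ((((μ r - 1) / m1 r : ℝ)) : ℂ) * (f : ℍ → ℂ) z)
        (𝓝[>] 0) (𝓝 ((κ : ℂ) * (f : ℍ → ℂ) z)) :=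
      ((Complex.continuous_ofReal.tendsto _).comp hre).mul_const _
    exact tendsto_nhds_unique (hlim z) h1
  have hL : LapM (-2 * κ) F := by
    refine ⟨hF, fun z => ?_⟩
    rw [lap_fderiv hF z]
    have h1 := hlap z
    rw [hℓ] at h1
    simp only at h1
    rw [hFf z]
    push_cast
    linear_combination (-2 : ℂ) * h1
  rcases le_or_gt (1 / 4) (-2 * κ) with hm | hm
  · -- eigenvalue at least 1/4
    have h1 := mvM_le hm hL hR z₁
    rw [hFf', hμ R hR z₁, hFf z₁, norm_mul, Complex.norm_real] at h1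
    have h2 : 0 < ‖(f : ℍ → ℂ) z₁‖ := norm_pos_iff.2 hz₁
    have h3 := le_of_mul_le_mul_right h1 h2
    have h4 := le_abs_self (μ R)
    rw [Real.norm_eq_abs] at h3
    linarith
  · rcases le_or_gt (-2 * κ) 0 with hm0 | hm0
    · -- nonpositive eigenvalue
      set ν : ℝ := √(1 / 4 - (-2 * κ)) with hν
      have hν2 : ν ^ 2 = 1 / 4 - (-2 * κ) := Real.sq_sqrt (by linarith)
      have hν0 : 0 ≤ ν := Real.sqrt_nonneg _
      have hνh : 1 / 2 ≤ ν := by nlinarith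
      have hLν : Lap ν F := by
        refine ⟨hF, fun z => ?_⟩
        have h1 := hL.eq z
        have h2 : (1 / 4 - ν ^ 2 : ℝ) = -2 * κ := by rw [hν2]; ring
        rw [h2]
        exact h1
      have h1 := mv_all ν F hLν z₁ R hR
      rw [hFf', hμ R hR z₁, hFf z₁] at h1
      have h2 := mul_right_cancel₀ hz₁ h1
      have h3 : μ R = lam ν R := by exact_mod_cast h2
      have h4 := one_le_lam hR hνh (lam_half hR)
      exact hf0 (contr hR hfZ (hμ R hR) (by rw [h3]; exact h4.trans (le_abs_self _)))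
    · -- exceptional eigenvalue
      rcases lt_or_ge (-2 * κ) (1 / 4 - ν₀ ^ 2) with hm2 | hm2
      · have hz := hS F (-2 * κ) hm0 hm2 hF
          (fun γ hγ z => by rw [hFf, hFf]; exact LW.inv f γ hγ z) hL.eq
          (sqint_of_LW f hF hFf)
        apply hz₁
        rw [← hFf]
        exact hz z₁
      · set ν : ℝ := √(1 / 4 - (-2 * κ)) with hν
        have hν2 : ν ^ 2 = 1 / 4 - (-2 * κ) := Real.sq_sqrt (by linarith)
        have hν0 : 0 ≤ ν := Real.sqrt_nonneg _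
        have hνh : ν ≤ ν₀ := by
          have : ν ^ 2 ≤ ν₀ ^ 2 := by linarith
          exact (sq_le_sq₀ hν0 hν₀).1 this
        have hLν : Lap ν F := by
          refine ⟨hF, fun z => ?_⟩
          have h1 := hL.eq z
          have h2 : (1 / 4 - ν ^ 2 : ℝ) = -2 * κ := by rw [hν2]; ring
          rw [h2]
          exact h1
        have h1 := mv_all ν F hLν z₁ R hR
        rw [hFf', hμ R hR z₁, hFf z₁] at h1
        have h2 := mul_right_cancel₀ hz₁ h1
        have h3 : μ R = lam ν R := by exact_mod_cast h2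
        have h4 := lam_mono hR hν0 hνh
        linarith

end

end Pool.Agent.H75.SG
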