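import Pool.Agent.H75.SE.KRes

/-! # The automorphic kernel with an arbitrary base point -/

set_option autoImplicit false

open UpperHalfPlane MeasureTheory Metric Filter Set ModularGroup CongruenceSubgroup
open scoped MatrixGroups ENNReal Modular Topology NNReal ComplexConjugate

namespace Pool.Agent.H75.SG

open Pool.Agent.H369R2 Pool.Agent.N799.DT Pool.Agent.N799.DT.OrthAux Pool.Agent.H75.SE

noncomputable section

variable {N : ℕ} {t : ℝ}

lemma mz_comm (z w : ℍ) : mz z w = mz w z := by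
  unfold mz
  rw [dist_comm]

lemma mz_int (γ : SL(2, ℤ)) (z w : ℍ) : mz (γ • z) (γ • w) = mz z w := by
  unfold mz
  rw [dist_smul_int]

/-- comparison of base points -/
def Dp (p q : ℍ) : ℝ := dist p I + dist q I

lemma Dp_nonneg (p q : ℍ) : 0 ≤ Dp p q := add_nonneg dist_nonneg dist_nonneg

lemma cosh_comp (p q : ℍ) (γ : SL(2, ℤ)) :
    Real.cosh (dist (γ • (I : ℍ)) I) ≤ Real.exp (Dp p q) * Real.cosh (dist p (γ • q)) := by
  refine cosh_le_exp_mul dist_nonneg ?_ dist_nonneg (Dp_nonneg p q)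
  have h1 := dist_triangle (γ • (I : ℍ)) (γ • q) I
  have h2 := dist_triangle (γ • q) p I
  rw [dist_smul_int, dist_comm (I : ℍ) q] at h1
  rw [dist_comm (γ • q) p] at h2
  unfold Dp
  linarith

lemma mm_le_mz (p q : ℍ) (γ : SL(2, ℤ)) :
    Real.exp (-(Dp p q)) * mm γ ≤ mz p (γ • q) := by
  have h1 := cosh_comp p q γ
  have hD := Dp_nonneg p q
  have h2 := mz_sq p (γ • q)
  have h3 : mm γ ^ 2 ≤ Real.exp (Dp p q) * mz p (γ • q) ^ 2 := by
    rw [← mz_smul, mz_sq, h2]
    have h4 : 1 ≤ Real.exp (Dp p q) := Real.one_le_exp hD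
    nlinarith
  have h5 : mm γ ≤ Real.exp (Dp p q) * mz p (γ • q) := by
    have h6 : mm γ ^ 2 ≤ (Real.exp (Dp p q) * mz p (γ • q)) ^ 2 := by
      refine h3.trans ?_
      rw [mul_pow]
      have h4 : 1 ≤ Real.exp (Dp p q) := Real.one_le_exp hD
      have h7 : Real.exp (Dp p q) ≤ Real.exp (Dp p q) ^ 2 := by nlinarith
      gcongr
    have h8 : 0 ≤ Real.exp (Dp p q) * mz p (γ • q) := by
      have := mz_pos p (γ • q)
      positivity
    exact (sq_le_sq₀ (mm_nonneg γ) h8).1 h6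
  calc Real.exp (-(Dp p q)) * mm γ ≤ Real.exp (-(Dp p q)) * (Real.exp (Dp p q) * mz p (γ • q)) := by
        gcongr
    _ = mz p (γ • q) := by rw [← mul_assoc, ← Real.exp_add, neg_add_cancel, Real.exp_zero, one_mul]

lemma summable_exp_mz (p q : ℍ) {s : ℝ} (hs : 0 < s) :
    Summable fun γ : SL(2, ℤ) => Real.exp (-(s * mz p (γ • q))) := by
  have h := summable_exp_mm (s := s * Real.exp (-(Dp p q))) (by positivity)
  refine Summable.of_nonneg_of_le (fun γ => (Real.exp_pos _).le) (fun γ => ?_) h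
  apply Real.exp_le_exp.2
  have := mm_le_mz p q γ
  nlinarith

lemma summable_pow_mz (p q : ℍ) {s : ℝ} (hs : 0 < s) (k : ℕ) :
    Summable fun γ : SL(2, ℤ) => mz p (γ • q) ^ k * Real.exp (-(s * mz p (γ • q))) :=
  Summable.of_nonneg_of_le
    (fun γ => mul_nonneg (pow_nonneg (mz_pos _ _).le k) (Real.exp_pos _).le)
    (fun γ => pow_mul_exp_le hs (mz_pos _ _).le k)
    ((summable_exp_mz p q (by positivity : 0 < s / 2)).mul_left _)

lemma term_le' {t D : ℝ} (ht : 0 < t) {p w : ℍ} (hw : Dp p w ≤ D) (γ : SL(2, ℤ)) :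
    Real.exp (-(t * Real.cosh (dist p (γ • w)))) ≤
      Real.exp (t * Real.exp (-D)) * Real.exp (-(t * Real.exp (-D) * mm γ)) := by
  rw [← Real.exp_add]
  apply Real.exp_le_exp.2
  have h3 := cosh_comp p w γ
  rw [cosh_dist_smul] at h3
  have h4 := two_le_mm γ
  have h5 : mm γ - 1 ≤ (mm γ ^ 2 - 2) / 2 := by nlinarith
  have h8 : Real.exp (Dp p w) ≤ Real.exp D := Real.exp_le_exp.2 hw
  have hc : 0 < Real.cosh (dist p (γ • w)) := Real.cosh_pos _
  have h6 : Real.exp (-D) * (mm γ - 1) ≤ Real.cosh (dist p (γ • w)) := by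
    have h7 : Real.exp (-D) * (mm γ - 1) ≤ Real.exp (-D) * (Real.exp D * Real.cosh (dist p (γ • w))) := by
      have h9 : mm γ - 1 ≤ Real.exp D * Real.cosh (dist p (γ • w)) :=
        h5.trans (h3.trans (by gcongr))
      gcongr
    rw [← mul_assoc, ← Real.exp_add, neg_add_cancel, Real.exp_zero, one_mul] at h7
    exact h7
  nlinarith

/-- the automorphic kernel -/
def ph (N : ℕ) (t : ℝ) (p w : ℍ) : ℝ :=
  ∑' γ : Gamma N, Real.exp (-(t * Real.cosh (dist p ((γ : SL(2, ℤ)) • w))))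

lemma ph_summable (ht : 0 < t) (p w : ℍ) :
    Summable fun γ : Gamma N => Real.exp (-(t * Real.cosh (dist p ((γ : SL(2, ℤ)) • w)))) := by
  refine Summable.of_nonneg_of_le (fun γ => (Real.exp_pos _).le)
    (fun γ => term_le' ht (le_refl (Dp p w)) (γ : SL(2, ℤ))) ?_
  exact ((summable_exp_mm (by positivity)).comp_injective Subtype.val_injective).mul_left _

lemma ph_cont (ht : 0 < t) (p : ℍ) : Continuous (ph N t p) := by
  rw [continuous_iff_continuousAt]
  intro w₀
  set D : ℝ := dist p I + (dist w₀ I + 1) with hD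
  have h : ContinuousOn (ph N t p) (closedBall (I : ℍ) (dist w₀ I + 1)) := by
    unfold ph
    refine continuousOn_tsum (u := fun γ : Gamma N => Real.exp (t * Real.exp (-D)) *
      Real.exp (-(t * Real.exp (-D) * mm γ))) (fun γ => ?_) ?_ ?_
    · have h1 : Continuous fun w : ℍ => dist p ((γ : SL(2, ℤ)) • w) :=
        continuous_const.dist (cont_smul_int _)
      exact (Real.continuous_exp.comp
        ((continuous_const.mul (Real.continuous_cosh.comp h1)).neg)).continuousOn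
    · exact ((summable_exp_mm (by positivity)).comp_injective Subtype.val_injective).mul_left _
    · intro γ w hw
      rw [Real.norm_of_nonneg (Real.exp_pos _).le]
      refine term_le' ht ?_ _
      have := mem_closedBall.1 hw
      unfold Dp
      linarith
  refine h.continuousAt ?_
  refine Filter.mem_of_superset (ball_mem_nhds w₀ one_pos) ?_
  intro w hw
  rw [mem_closedBall]
  have h1 := dist_triangle w w₀ I
  rw [mem_ball] at hw
  linarith

lemma ph_nonneg (p w : ℍ) : 0 ≤ ph N t p w := tsum_nonneg fun γ => (Real.exp_pos _).le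

lemma ofReal_ph (ht : 0 < t) (p w : ℍ) :
    ENNReal.ofReal (ph N t p w) = ∑' γ : Gamma N, kt t p ((γ : SL(2, ℤ)) • w) := by
  unfold ph kt
  exact ENNReal.ofReal_tsum_of_nonneg (fun γ => (Real.exp_pos _).le) (ph_summable ht p w)

lemma ph_inv (p : ℍ) (δ : SL(2, ℤ)) (hδ : δ ∈ Gamma N) (w : ℍ) : ph N t p (δ • w) = ph N t p w := by
  unfold ph
  rw [← (Equiv.mulRight (⟨δ, hδ⟩ : Gamma N)).tsum_eq
    (fun γ : Gamma N => Real.exp (-(t * Real.cosh (dist p ((γ : SL(2, ℤ)) • w)))))]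
  congr 1
  ext γ
  simp [mul_smul]

/-- unfolding against the automorphic kernel -/
lemma unfold_ph (ht : 0 < t) (p : ℍ) {Ψ : ℍ → ℝ≥0∞} (hΨ : Measurable Ψ)
    (hi : ∀ δ ∈ Gamma N, ∀ z, Ψ (δ • z) = Ψ z) :
    ∫⁻ w, Ψ w * ENNReal.ofReal (ph N t p w) ∂(nu N) = 2 * ∫⁻ w, Ψ w * kt t p w := by
  have h := nu_unfold N (F := fun w => Ψ w * kt t p w) (hΨ.mul (kt_meas t p))
  rw [← h]
  apply lintegral_congr
  intro w
  rw [ofReal_ph ht, ← ENNReal.tsum_mul_left]
  congr 1
  ext δ
  rw [hi δ δ.2]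

/-- inner products of the kernels -/
lemma lint_ph_mul (ht : 0 < t) (p q : ℍ) :
    ∫⁻ w, ENNReal.ofReal (ph N t q w) * ENNReal.ofReal (ph N t p w) ∂(nu N) =
      2 * ∑' γ : Gamma N, ENNReal.ofReal (gt t (mz p ((γ : SL(2, ℤ)) • q))) := by
  rw [unfold_ph ht p (ph_cont ht q).measurable.ennreal_ofReal fun δ hδ z => by rw [ph_inv q δ hδ]]
  congr 1
  simp only [ofReal_ph ht, ← ENNReal.tsum_mul_right]
  rw [lintegral_tsum]
  · rw [← (Equiv.inv (Gamma N)).tsum_eq
      (fun γ : Gamma N => ENNReal.ofReal (gt t (mz p ((γ : SL(2, ℤ)) • q))))]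
    congr 1
    ext γ
    simp only [kt_smul]
    rw [G_eq ht, mz_comm]
    rfl
  · intro γ
    refine Measurable.aemeasurable ?_
    exact ((kt_meas t q).comp (cont_smul_int (γ : SL(2, ℤ))).measurable).mul (kt_meas t p)

lemma lint_ph (ht : 0 < t) (p : ℍ) : ∫⁻ w, ENNReal.ofReal (ph N t p w) ∂(nu N) =
    ENNReal.ofReal (4 * Real.pi * Real.exp (-t) / t) := by
  have h := unfold_ph (N := N) ht p (measurable_const (a := (1 : ℝ≥0∞))) fun _ _ _ => rfl
  simp only [one_mul] at h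
  rw [h, lint_kt ht]
  have e2 : (2 : ℝ≥0∞) = ENNReal.ofReal 2 := by simp
  rw [e2, ← ENNReal.ofReal_mul (by norm_num)]
  congr 1
  ring

lemma kt_swap_int' (t R : ℝ) (p q : ℍ) :
    ∫⁻ w, (ENNReal.ofReal (bv R))⁻¹ * ∫⁻ v in closedBall p R, kt t v w * kt t q w =
      (ENNReal.ofReal (bv R))⁻¹ * ∫⁻ v in closedBall p R, ∫⁻ w, kt t v w * kt t q w := by
  have hm2 : Measurable fun x : ℍ × ℍ => kt t x.2 x.1 * kt t q x.1 := by
    have h3 : Measurable fun x : ℍ × ℍ => kt t x.2 x.1 :=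
      ((kt_cont t).comp (continuous_snd.prodMk continuous_fst)).measurable
    have h4 : Measurable fun x : ℍ × ℍ => kt t q x.1 := (kt_meas t q).comp measurable_fst
    exact h3.mul h4
  have hm3 : Measurable fun w : ℍ => ∫⁻ v in closedBall p R, kt t v w * kt t q w :=
    Measurable.lintegral_prod_right' (ν := volume.restrict (closedBall p R))
      (f := fun x : ℍ × ℍ => kt t x.2 x.1 * kt t q x.1) hm2
  rw [lintegral_const_mul _ hm3]
  congr 1
  exact lintegral_lintegral_swap (μ := (volume : Measure ℍ))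
    (ν := (volume : Measure ℍ).restrict (closedBall p R))
    (f := fun w v : ℍ => kt t v w * kt t q w) hm2.aemeasurable

lemma Ap_kt_conv' {R : ℝ} (ht : 0 < t) (p q : ℍ) : ∫⁻ w, Ap R (kt t w) p * kt t q w =
    Ap R (fun v => ENNReal.ofReal (gt t (mz v q))) p := by
  have e1 : ∀ w, Ap R (kt t w) p * kt t q w =
      (ENNReal.ofReal (bv R))⁻¹ * ∫⁻ v in closedBall p R, kt t v w * kt t q w := by
    intro w
    unfold Ap
    rw [mul_assoc, ← lintegral_mul_const _ (kt_meas t w)]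
    simp only [kt_comm t w]
  simp only [e1]
  rw [kt_swap_int']
  unfold Ap
  congr 1
  apply lintegral_congr
  intro v
  exact G_eq ht v q

/-- averages of the kernel -/
lemma lint_Ap_ph {R : ℝ} (hR : 0 < R) (ht : 0 < t) (p : ℍ) :
    ∫⁻ w, Ap R (fun v => ENNReal.ofReal (ph N t p v)) w * ENNReal.ofReal (ph N t p w) ∂(nu N) =
      2 * ∑' γ : Gamma N, Ap R (fun v => ENNReal.ofReal (gt t (mz v p))) ((γ : SL(2, ℤ)) • p) := by
  have hm : Measurable fun v => ENNReal.ofReal (ph N t p v) := (ph_cont ht p).measurable.ennreal_ofReal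
  rw [unfold_ph ht p (measurable_Ap hR hm) fun δ hδ z => by
    rw [Ap_smul_int]
    congr 1
    funext v
    rw [ph_inv p δ hδ]]
  congr 1
  have h1 : ∀ w, Ap R (fun v => ENNReal.ofReal (ph N t p v)) w =
      ∑' γ : Gamma N, Ap R (kt t w) ((γ : SL(2, ℤ))⁻¹ • p) := by
    intro w
    simp only [ofReal_ph ht, kt_smul]
    unfold Ap
    rw [lintegral_tsum fun γ => (kt_meas t _).aemeasurable, ← ENNReal.tsum_mul_left]
    congr 1
    ext γ
    exact Ap_kt_swap R _ _
  simp only [h1, ← ENNReal.tsum_mul_right]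
  rw [lintegral_tsum]
  · simp only [Ap_kt_conv' ht]
    rw [← (Equiv.inv (Gamma N)).tsum_eq (fun γ : Gamma N =>
      Ap R (fun v => ENNReal.ofReal (gt t (mz v p))) ((γ : SL(2, ℤ)) • p))]
    rfl
  · intro γ
    refine Measurable.aemeasurable ?_
    refine Measurable.mul ?_ (kt_meas t p)
    have : (fun w => Ap R (kt t w) ((γ : SL(2, ℤ))⁻¹ • p)) =
        Ap R (kt t ((γ : SL(2, ℤ))⁻¹ • p)) := by
      funext w
      exact Ap_kt_swap R _ _
    rw [this]
    exact measurable_Ap hR (kt_meas t _)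

end

end Pool.Agent.H75.SG
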