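import Pool.Agent.H75.SG.Gap

/-! # The limiting inequality -/

set_option autoImplicit false

open UpperHalfPlane MeasureTheory Metric Filter Set ModularGroup CongruenceSubgroup
open scoped MatrixGroups ENNReal Modular Topology NNReal ComplexConjugate

namespace Pool.Agent.H75.SG

open Pool.Agent.H369R2 Pool.Agent.N799.DT Pool.Agent.N799.DT.OrthAux Pool.Agent.H75.SE

noncomputable section

variable {N : ℕ} {t : ℝ}

lemma mz_base (p : ℍ) (γ : SL(2, ℤ)) : mz ((aff p)⁻¹ • (γ • p)) I = mz p (γ • p) := by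
  rw [mz_aff, mz_comm]

/-- the limit of the quadratic forms -/
theorem SZ_lim (ht : 0 < t) (p : ℍ) :
    Tendsto (fun r => (SZ N r t p - IP N t p p) / m1 r) (𝓝[>] 0)
      (𝓝 (2 * ∑' γ : Gamma N, LL t (mz p ((γ : SL(2, ℤ)) • p)))) := by
  have hb : Summable fun γ : Gamma N =>
      Kt t * (mz p ((γ : SL(2, ℤ)) • p) ^ 4 * Real.exp (-(t / 2 * mz p ((γ : SL(2, ℤ)) • p)))) :=
    ((summable_pow_mz p p (half_pos ht) 4).mul_left (Kt t)).comp_injective Subtype.val_injective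
  have hbd : ∀ r : ℝ, 0 < r → r ≤ 1 → ∀ γ : Gamma N,
      |(Az r t p ((γ : SL(2, ℤ)) • p) - gt t (mz p ((γ : SL(2, ℤ)) • p))) / m1 r| ≤
      Kt t * (mz p ((γ : SL(2, ℤ)) • p) ^ 4 * Real.exp (-(t / 2 * mz p ((γ : SL(2, ℤ)) • p)))) := by
    intro r hr hr1 γ
    have h1 := Ag_bd ht ((aff p)⁻¹ • ((γ : SL(2, ℤ)) • p)) hr hr1
    rw [mz_base] at h1
    have hm := m1_pos hr
    rw [abs_div, abs_of_pos hm, div_le_iff₀ hm, Az_eq]
    exact h1
  have h1 := tendsto_tsum_of_dominated_convergence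
    (f := fun (r : ℝ) (γ : Gamma N) =>
      (Az r t p ((γ : SL(2, ℤ)) • p) - gt t (mz p ((γ : SL(2, ℤ)) • p))) / m1 r)
    (g := fun γ : Gamma N => LL t (mz p ((γ : SL(2, ℤ)) • p))) (𝓕 := 𝓝[>] (0 : ℝ)) hb
    (fun γ => by
      have := Ag_lim ht ((aff p)⁻¹ • ((γ : SL(2, ℤ)) • p))
      rw [mz_base] at this
      simp only [Az_eq]
      exact this)
    (by
      filter_upwards [Ioc_mem_nhdsGT (zero_lt_one : (0 : ℝ) < 1)] with r hr γ
      rw [Real.norm_eq_abs]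
      exact hbd r hr.1 hr.2 γ)
  refine (h1.const_mul 2).congr' ?_
  filter_upwards [Ioc_mem_nhdsGT (zero_lt_one : (0 : ℝ) < 1)] with r hr
  have hm := m1_pos hr.1
  have hs1 : Summable fun γ : Gamma N =>
      (Az r t p ((γ : SL(2, ℤ)) • p) - gt t (mz p ((γ : SL(2, ℤ)) • p))) / m1 r :=
    Summable.of_norm_bounded hb fun γ => hbd r hr.1 hr.2 γ
  have hs2 : Summable fun γ : Gamma N =>
      Az r t p ((γ : SL(2, ℤ)) • p) - gt t (mz p ((γ : SL(2, ℤ)) • p)) := by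
    have := hs1.mul_right (m1 r)
    refine this.congr fun γ => ?_
    rw [div_mul_cancel₀ _ hm.ne']
  have hs3 : Summable fun γ : Gamma N => Az r t p ((γ : SL(2, ℤ)) • p) := by
    have := hs2.add (summable_gtz (N := N) ht p p)
    refine this.congr fun γ => ?_
    rw [sub_add_cancel]
  rw [IP_eq ht]
  unfold SZ
  rw [tsum_div_const, hs3.tsum_sub (summable_gtz ht p p)]
  ring

lemma norm_PP' [NeZero N] (ht : 0 < t) (p : ℍ) :
    ‖PP N t ht p‖ ^ 2 = IP N t p p - P1 t ^ 2 / VN N := by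
  rw [norm_PP, P1_VN ht]
  unfold IP az
  ring

/-- the gap implies the limiting inequality -/
theorem ineqLZ {ν₀ : ℝ} (hν₀ : 0 ≤ ν₀) [NeZero N] (hS : LGap N ν₀) (ht : 0 < t) (p : ℍ) :
    2 * ∑' γ : Gamma N, LL t (mz p ((γ : SL(2, ℤ)) • p)) ≤
      (ν₀ ^ 2 - 1 / 4) / 2 * (4 * Real.pi / t * az N t p) := by
  have h0 := le_of_tendsto_of_tendsto (SZ_lim (N := N) ht p)
    ((lam_lim ν₀).mul_const (‖PP N t ht p‖ ^ 2)) (by
      filter_upwards [self_mem_nhdsWithin] with r hr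
      have hr0 : 0 < r := hr
      have h1 := form_ineq' hν₀ hS hr0 (PP_mem (N := N) ht p)
      rw [inner_LA_PP] at h1
      have hm := m1_pos hr0
      rw [div_mul_eq_mul_div]
      gcongr
      have h2 := norm_PP' (N := N) ht p
      linarith)
  rw [norm_PP] at h0
  exact h0

lemma LL_dz (ht : 0 < t) (p q : ℍ) (γ : SL(2, ℤ)) : LL t (mz p (γ • q)) = Real.pi / t *
    (t ^ 2 / 4 * dz 4 t p q γ - t / 4 * dz 3 t p q γ - t ^ 2 * dz 2 t p q γ - t * dz 1 t p q γ -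
      1 / 4 * dz 2 t p q γ - dz 0 t p q γ) := by
  unfold LL dz wk
  have := mz_pos p (γ • q)
  field_simp

lemma tsum_LZ (ht : 0 < t) (p : ℍ) : ∑' γ : Gamma N, LL t (mz p ((γ : SL(2, ℤ)) • p)) =
    Real.pi / t * (t ^ 2 / 4 * DZ N 4 t p p - t / 4 * DZ N 3 t p p - t ^ 2 * DZ N 2 t p p -
      t * DZ N 1 t p p - 1 / 4 * DZ N 2 t p p - DZ N 0 t p p) := by
  have h (k : ℕ) := (dz_summable (N := N) k ht p p)
  simp only [LL_dz ht]
  rw [tsum_mul_left]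
  congr 1
  have s4 := (h 4).mul_left (t ^ 2 / 4)
  have s3 := (h 3).mul_left (t / 4)
  have s2 := (h 2).mul_left (t ^ 2)
  have s1 := (h 1).mul_left t
  have s2' := (h 2).mul_left (1 / 4)
  have s0 := h 0
  rw [((((s4.sub s3).sub s2).sub s1).sub s2').tsum_sub s0, (((s4.sub s3).sub s2).sub s1).tsum_sub s2',
    ((s4.sub s3).sub s2).tsum_sub s1, (s4.sub s3).tsum_sub s2, s4.tsum_sub s3]
  simp only [tsum_mul_left]
  rfl

/-- the numerator of the Rayleigh quotient -/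
def NU (N : ℕ) (t : ℝ) (p : ℍ) : ℝ :=
  t ^ 2 * DZ N 2 t p p + t * DZ N 1 t p p + DZ N 0 t p p + DZ N 2 t p p / 4 -
    (t ^ 2 * DZ N 4 t p p - t * DZ N 3 t p p) / 4

/-- the elementary inequality -/
def TwoZ (N : ℕ) (ν₀ t : ℝ) (p : ℍ) : Prop := (1 / 4 - ν₀ ^ 2) * az N t p ≤ NU N t p

theorem twoZ_of_gap {ν₀ : ℝ} (hν₀ : 0 ≤ ν₀) [NeZero N] (hS : LGap N ν₀) (ht : 0 < t) (p : ℍ) :
    TwoZ N ν₀ t p := by
  have h := ineqLZ hν₀ hS ht p
  rw [tsum_LZ ht] at h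
  unfold TwoZ NU
  have hpi := Real.pi_pos
  have h4 : 2 * (Real.pi / t) * ((1 / 4 - ν₀ ^ 2) * az N t p) ≤ 2 * (Real.pi / t) *
      (t ^ 2 * DZ N 2 t p p + t * DZ N 1 t p p + DZ N 0 t p p + DZ N 2 t p p / 4 -
        (t ^ 2 * DZ N 4 t p p - t * DZ N 3 t p p) / 4) := by
    have e1 : (ν₀ ^ 2 - 1 / 4) / 2 * (4 * Real.pi / t * az N t p) =
        -(2 * (Real.pi / t) * ((1 / 4 - ν₀ ^ 2) * az N t p)) := by ring
    rw [e1] at h
    linarith
  exact le_of_mul_le_mul_left h4 (by positivity)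

end

end Pool.Agent.H75.SG
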