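import Pool.Agent.H75.SG.Ode

/-! # The lower bound for the variance -/

set_option autoImplicit false

open UpperHalfPlane MeasureTheory Metric Filter Set ModularGroup CongruenceSubgroup
open scoped MatrixGroups ENNReal Modular Topology NNReal ComplexConjugate

namespace Pool.Agent.H75.SG

open Pool.Agent.H369R2 Pool.Agent.N799.DT Pool.Agent.N799.DT.OrthAux Pool.Agent.H75.SE

noncomputable section

variable {N : ℕ} {t : ℝ}

/-- integrals against the kernel in terms of ball integrals -/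
lemma lint_kt_layer' (ht : 0 < t) (p : ℍ) {Ψ : ℍ → ℝ≥0∞} (hΨ : Measurable Ψ) :
    ∫⁻ w, Ψ w * kt t p w =
      ∫⁻ s in Ioi (0 : ℝ), ENNReal.ofReal (wt t s) * ∫⁻ w in closedBall p s, Ψ w := by
  have hdist : Continuous fun w : ℍ => dist w p := continuous_id.dist continuous_const
  set S : Set (ℍ × ℝ) := {x | dist x.1 p ≤ x.2} with hS
  have hSc : IsClosed S := isClosed_le (hdist.comp continuous_fst) continuous_snd
  have hwm : Measurable fun s : ℝ => ENNReal.ofReal (wt t s) := (wt_cont t).measurable.ennreal_ofReal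
  -- inner integrals
  have e1 : ∀ w, Ψ w * kt t p w = ∫⁻ s in Ioi (0 : ℝ),
      S.indicator (fun x : ℍ × ℝ => ENNReal.ofReal (wt t x.2) * Ψ x.1) (w, s) := by
    intro w
    have h1 : ∀ s : ℝ, S.indicator (fun x : ℍ × ℝ => ENNReal.ofReal (wt t x.2) * Ψ x.1) (w, s) =
        (Ici (dist w p)).indicator (fun s => ENNReal.ofReal (wt t s) * Ψ w) s := by
      intro s
      by_cases hw : dist w p ≤ s
      · rw [indicator_of_mem (show s ∈ Ici (dist w p) from hw),
          indicator_of_mem (show (w, s) ∈ S from hw)]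
      · rw [indicator_of_notMem (show s ∉ Ici (dist w p) from hw),
          indicator_of_notMem (show (w, s) ∉ S from hw)]
    simp only [h1]
    rw [lintegral_indicator measurableSet_Ici, Measure.restrict_restrict measurableSet_Ici]
    set d := dist w p with hd
    have hd0 : 0 ≤ d := dist_nonneg
    have h2 : (Ici d ∩ Ioi 0 : Set ℝ) =ᵐ[volume] (Ioi d : Set ℝ) := by
      have hsub : Ioi d ⊆ Ici d ∩ Ioi 0 := fun x hx =>
        ⟨(le_of_lt hx : d ≤ x), lt_of_le_of_lt hd0 hx⟩
      have hdiff : (Ici d ∩ Ioi 0) \ Ioi d ⊆ {d} := by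
        rintro x ⟨⟨hx1, hx2⟩, hx3⟩
        simp only [mem_Ioi, not_lt] at hx3
        simp only [mem_singleton_iff]
        exact le_antisymm hx3 hx1
      have h6 : volume ((Ici d ∩ Ioi 0) \ Ioi d) = 0 := measure_mono_null hdiff (by simp)
      exact ae_eq_set.2 ⟨h6, by rw [Set.sdiff_eq_empty.2 hsub]; simp⟩
    rw [Measure.restrict_congr_set h2, lintegral_mul_const _ hwm, layer ht hd0, mul_comm]
    unfold kt
    rw [dist_comm p w]
  simp only [e1]
  rw [lintegral_lintegral_swap]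
  · apply lintegral_congr
    intro s
    have h1 : ∀ w, S.indicator (fun x : ℍ × ℝ => ENNReal.ofReal (wt t x.2) * Ψ x.1) (w, s) =
        (closedBall p s).indicator (fun w => ENNReal.ofReal (wt t s) * Ψ w) w := by
      intro w
      by_cases hw : dist w p ≤ s
      · rw [indicator_of_mem (show w ∈ closedBall p s from hw),
          indicator_of_mem (show (w, s) ∈ S from hw)]
      · rw [indicator_of_notMem (show w ∉ closedBall p s from hw),
          indicator_of_notMem (show (w, s) ∉ S from hw)]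
    simp only [h1]
    rw [lintegral_indicator isClosed_closedBall.measurableSet, lintegral_const_mul _ hΨ]
  · refine Measurable.aemeasurable (Measurable.indicator ?_ hSc.measurableSet)
    exact (hwm.comp measurable_snd).mul (hΨ.comp measurable_fst)

/-- unfolding an eigenfunction -/
lemma lint_eig' (ht : 0 < t) (p : ℍ) {g : ℍ → ℝ} (hg : Continuous g)
    (hi : ∀ δ ∈ Gamma N, ∀ z, g (δ • z) = g z) {ν : ℝ}
    (hmv : ∀ R : ℝ, 0 < R → Av R g p = lam ν R * g p) (hl : ∀ R : ℝ, 0 ≤ lam ν R) (hI : 0 ≤ g p) :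
    ∫⁻ w, ENNReal.ofReal (g w) * ENNReal.ofReal (ph N t p w) ∂(nu N) =
      ∫⁻ w, ENNReal.ofReal (-g w) * ENNReal.ofReal (ph N t p w) ∂(nu N) +
        2 * ∫⁻ s in Ioi (0 : ℝ), ENNReal.ofReal (wt t s * (bv s * (lam ν s * g p))) := by
  have hm1 : Measurable fun w => ENNReal.ofReal (g w) := hg.measurable.ennreal_ofReal
  have hm2 : Measurable fun w => ENNReal.ofReal (-g w) := hg.neg.measurable.ennreal_ofReal
  rw [unfold_ph ht p hm1 fun δ hδ z => by rw [hi δ hδ],
    unfold_ph ht p hm2 fun δ hδ z => by rw [hi δ hδ], ← mul_add]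
  congr 1
  rw [lint_kt_layer' ht p hm1, lint_kt_layer' ht p hm2]
  have key : ∀ s ∈ Ioi (0 : ℝ), ENNReal.ofReal (wt t s) * ∫⁻ w in closedBall p s, ENNReal.ofReal (g w) =
      ENNReal.ofReal (wt t s * (bv s * (lam ν s * g p))) +
      ENNReal.ofReal (wt t s) * ∫⁻ w in closedBall p s, ENNReal.ofReal (-g w) := by
    intro s hs
    have hs0 : 0 < s := hs
    have h1 := hmv s hs0
    unfold Av at h1
    rw [smul_eq_mul, inv_mul_eq_iff_eq_mul₀ (bv_pos hs0).ne'] at h1
    have h2 := SE.intOn hg s p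
    rw [integral_eq_lintegral_pos_part_sub_lintegral_neg_part h2] at h1
    have h3 : ∫⁻ w in closedBall p s, ENNReal.ofReal (g w) ≠ ∞ := by
      refine ((lintegral_mono fun w => ?_).trans_lt h2.2).ne
      exact Real.ofReal_le_enorm _
    have h4 : ∫⁻ w in closedBall p s, ENNReal.ofReal (-g w) ≠ ∞ := by
      refine ((lintegral_mono fun w => ?_).trans_lt h2.2).ne
      rw [← enorm_neg]
      exact Real.ofReal_le_enorm _
    have hb : 0 ≤ bv s * (lam ν s * g p) :=
      mul_nonneg (bv_nonneg s) (mul_nonneg (hl s) hI)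
    have h5 : ∫⁻ w in closedBall p s, ENNReal.ofReal (g w) =
        ENNReal.ofReal (bv s * (lam ν s * g p)) + ∫⁻ w in closedBall p s, ENNReal.ofReal (-g w) := by
      rw [← ENNReal.toReal_eq_toReal_iff' h3 (ENNReal.add_ne_top.2 ⟨ENNReal.ofReal_ne_top, h4⟩),
        ENNReal.toReal_add ENNReal.ofReal_ne_top h4, ENNReal.toReal_ofReal hb]
      linarith
    rw [h5, mul_add, ENNReal.ofReal_mul (wt_nonneg ht hs0.le)]
  rw [setLIntegral_congr_fun measurableSet_Ioi key, lintegral_add_right', add_comm]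
  have h6 : (fun s => ENNReal.ofReal (wt t s) * ∫⁻ w in closedBall p s, ENNReal.ofReal (-g w)) =
      fun s => ∫⁻ w, ({x : ℝ × ℍ | dist x.2 p ≤ x.1}).indicator
        (fun x : ℝ × ℍ => ENNReal.ofReal (wt t x.1) * ENNReal.ofReal (-g x.2)) (s, w) := by
    funext s
    have h1 : ∀ w, ({x : ℝ × ℍ | dist x.2 p ≤ x.1}).indicator
        (fun x : ℝ × ℍ => ENNReal.ofReal (wt t x.1) * ENNReal.ofReal (-g x.2)) (s, w) =
        (closedBall p s).indicator (fun w => ENNReal.ofReal (wt t s) * ENNReal.ofReal (-g w)) w := by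
      intro w
      by_cases hw : dist w p ≤ s
      · rw [indicator_of_mem (show w ∈ closedBall p s from hw),
          indicator_of_mem (show (s, w) ∈ {x : ℝ × ℍ | dist x.2 p ≤ x.1} from hw)]
      · rw [indicator_of_notMem (show w ∉ closedBall p s from hw),
          indicator_of_notMem (show (s, w) ∉ {x : ℝ × ℍ | dist x.2 p ≤ x.1} from hw)]
    simp only [h1]
    rw [lintegral_indicator isClosed_closedBall.measurableSet, lintegral_const_mul _ hm2]
  rw [h6]
  have hdist : Continuous fun w : ℍ => dist w p := continuous_id.dist continuous_const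
  refine (Measurable.lintegral_prod_right' (ν := (volume : Measure ℍ)) ?_).aemeasurable
  refine Measurable.indicator ?_ (isClosed_le (hdist.comp continuous_snd) continuous_fst).measurableSet
  exact (((wt_cont t).measurable.ennreal_ofReal).comp measurable_fst).mul (hm2.comp measurable_snd)

/-- lower bound for the inner product -/
lemma inner_low' (p : ℍ) (ht : 0 < t) {u : LW N} {ν : ℝ}
    (hmv : ∀ R : ℝ, 0 < R → ∀ z, Av R (u : ℍ → ℂ) z = (lam ν R : ℂ) * (u : ℍ → ℂ) z)
    (hI : (u : ℍ → ℂ) p = 1) {c : ℝ}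
    (hc : ENNReal.ofReal c ≤ ∫⁻ s in Ioi (0 : ℝ), ENNReal.ofReal (wt t s * (bv s * lam ν s))) :
    2 * c ≤ (inner ℂ (PK N t ht p) u).re := by
  set g : ℍ → ℝ := fun z => ((u : ℍ → ℂ) z).re with hg
  have hgc : Continuous g := Complex.continuous_re.comp (LW.cont u)
  have hgI : g p = 1 := by rw [hg]; simp only [hI, Complex.one_re]
  have hmvg : ∀ R : ℝ, 0 < R → Av R g p = lam ν R * g p := by
    intro R hR
    have h1 := congrArg Complex.re (hmv R hR p)
    rw [re_Av' (LW.cont u), Complex.re_ofReal_mul] at h1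
    exact h1
  have hint := LW.integrable_mul (PK N t ht p) u
  have h1 : (inner ℂ (PK N t ht p) u).re = ∫ z, g z * ph N t p z ∂(nu N) := by
    rw [LW.inner_def]
    have h2 := integral_re hint
    simp only [RCLike.re_to_complex] at h2
    rw [← h2]
    congr 1
    ext z
    rw [PK_apply, Complex.conj_ofReal, Complex.re_ofReal_mul, mul_comm]
  have hintr : Integrable (fun z => g z * ph N t p z) (nu N) := by
    have h2 := hint.re
    refine h2.congr (.of_forall fun z => ?_)
    simp only [RCLike.re_to_complex]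
    rw [PK_apply, Complex.conj_ofReal, Complex.re_ofReal_mul, mul_comm]
  rw [h1, integral_eq_lintegral_pos_part_sub_lintegral_neg_part hintr]
  have e1 : ∀ z, ENNReal.ofReal (g z * ph N t p z) = ENNReal.ofReal (g z) * ENNReal.ofReal (ph N t p z) :=
    fun z => ENNReal.ofReal_mul' (ph_nonneg p z)
  have e2 : ∀ z, ENNReal.ofReal (-(g z * ph N t p z)) =
      ENNReal.ofReal (-g z) * ENNReal.ofReal (ph N t p z) := fun z => by
    rw [← neg_mul, ENNReal.ofReal_mul' (ph_nonneg p z)]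
  have f1 : ∫⁻ z, ENNReal.ofReal (g z) * ENNReal.ofReal (ph N t p z) ∂(nu N) ≠ ∞ := by
    refine ((lintegral_mono fun w => ?_).trans_lt hintr.2).ne
    rw [← e1]
    exact Real.ofReal_le_enorm _
  simp only [e1, e2]
  have h3 := lint_eig' ht p hgc (N := N) (fun δ hδ z => by
    rw [hg]
    simp only [LW.inv u δ hδ z]) hmvg (lam_nonneg ν) (by rw [hgI]; norm_num)
  rw [hgI] at h3
  simp only [mul_one] at h3
  rw [h3] at f1
  obtain ⟨f2, f3⟩ := ENNReal.add_ne_top.1 f1
  rw [h3, ENNReal.toReal_add f2 f3, add_sub_cancel_left, ENNReal.toReal_mul, ENNReal.toReal_ofNat]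
  have f4 : ∫⁻ s in Ioi (0 : ℝ), ENNReal.ofReal (wt t s * (bv s * lam ν s)) ≠ ∞ := by
    intro h
    rw [h] at f3
    simp at f3
  have h4 := ENNReal.toReal_mono f4 hc
  have h5 : c ≤ (ENNReal.ofReal c).toReal := by
    rw [ENNReal.toReal_ofReal']
    exact le_max_left _ _
  linarith

/-- an exceptional eigenvalue makes the variance large -/
theorem bessel_low' [NeZero N] (p : ℍ) {u : LW N} {ν : ℝ} (hν : 0 ≤ ν) (hν' : ν ≤ 1 / 2)
    (hmv : ∀ R : ℝ, 0 < R → ∀ z, Av R (u : ℍ → ℂ) z = (lam ν R : ℂ) * (u : ℍ → ℂ) z)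
    (hI : (u : ℍ → ℂ) p = 1) (h0 : inner ℂ (one N) u = 0) :
    ∃ c : ℝ, 0 < c ∧ ∀ t : ℝ, 0 < t → t ≤ 1 → c * t ^ (-(2 * ν)) ≤ az N t p := by
  obtain ⟨c, hc, hlow⟩ := transform_lower
  have hu : 0 < ‖u‖ := by
    rw [norm_pos_iff]
    rintro rfl
    have : ((0 : LW N) : ℍ → ℂ) p = 0 := rfl
    rw [this] at hI
    exact zero_ne_one hI
  have hpi := Real.pi_pos
  refine ⟨c ^ 2 / (Real.pi * ‖u‖ ^ 2), by positivity, fun t ht ht1 => ?_⟩
  have h1 := inner_low' p ht hmv hI (hlow ν t hν hν' ht ht1)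
  have h2 : inner ℂ (PP N t ht p) u = inner ℂ (PK N t ht p) u := by
    unfold PP
    rw [inner_sub_left, inner_smul_left, h0, mul_zero, sub_zero]
  rw [← h2] at h1
  have h3 : (inner ℂ (PP N t ht p) u).re ≤ ‖PP N t ht p‖ * ‖u‖ :=
    (Complex.re_le_norm _).trans (norm_inner_le_norm _ _)
  have h4 := norm_PP (N := N) ht p
  have hr := Real.rpow_pos_of_pos ht (-(1 / 2 + ν))
  have h5 : (2 * (c * t ^ (-(1 / 2 + ν)))) ^ 2 ≤ (‖PP N t ht p‖ * ‖u‖) ^ 2 :=
    pow_le_pow_left₀ (by positivity) (h1.trans h3) 2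
  rw [mul_pow ‖PP N t ht p‖, h4] at h5
  have h6 : (t ^ (-(1 / 2 + ν))) ^ 2 = t⁻¹ * t ^ (-(2 * ν)) := by
    rw [← Real.rpow_natCast, ← Real.rpow_mul ht.le, ← Real.rpow_neg_one, ← Real.rpow_add ht]
    congr 1
    push_cast
    ring
  rw [mul_pow, mul_pow, h6] at h5
  rw [div_mul_eq_mul_div, div_le_iff₀ (by positivity)]
  have h7 : t⁻¹ * 4 * (c ^ 2 * t ^ (-(2 * ν))) ≤ t⁻¹ * 4 * (az N t p * (Real.pi * ‖u‖ ^ 2)) := by
    calc t⁻¹ * 4 * (c ^ 2 * t ^ (-(2 * ν))) = 2 ^ 2 * (c ^ 2 * (t⁻¹ * t ^ (-(2 * ν)))) := by ring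
      _ ≤ 4 * Real.pi / t * az N t p * ‖u‖ ^ 2 := h5
      _ = _ := by ring
  exact le_of_mul_le_mul_left h7 (by positivity)

end

end Pool.Agent.H75.SG
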