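import Pool.Agent.H75.SG.Lim

/-! # From the inequality to the growth of the variance -/

set_option autoImplicit false

open UpperHalfPlane MeasureTheory Metric Filter Set ModularGroup CongruenceSubgroup
open scoped MatrixGroups ENNReal Modular Topology NNReal ComplexConjugate

namespace Pool.Agent.H75.SG

open Pool.Agent.H369R2 Pool.Agent.N799.DT Pool.Agent.N799.DT.OrthAux Pool.Agent.H75.SE

noncomputable section

/-- the polynomial of the supersolution -/
def pp (x : ℝ) : ℝ := 1 / 64 + x / 8 + x ^ 2 / 2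
/-- its companion -/
def ww (x : ℝ) : ℝ := 11 / 32 - Real.exp (-(2 * x)) * (5 / 16 + x / 2)

lemma hasDeriv_pp (x : ℝ) : HasDerivAt pp (1 / 8 + x) x := by
  have h := (((hasDerivAt_id x).div_const 8).const_add (1 / 64)).add
    ((hasDerivAt_pow 2 x).div_const 2)
  unfold pp
  convert! h using 1
  norm_num

lemma hasDeriv_ww (x : ℝ) : HasDerivAt ww (Real.exp (-(2 * x)) * (1 / 8 + x)) x := by
  have h1 : HasDerivAt (fun x : ℝ => Real.exp (-(2 * x))) (Real.exp (-(2 * x)) * (-(2 * 1))) x :=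
    ((hasDerivAt_id x).const_mul 2).neg.exp
  have h2 := (h1.mul (((hasDerivAt_id x).div_const 2).const_add (5 / 16 : ℝ))).const_sub (11 / 32)
  unfold ww
  convert! h2 using 1
  simp only [id]
  ring

lemma exp_aux {x : ℝ} (hx : 0 ≤ x) :
    1 + 2 * x + 2 * x ^ 2 + 4 / 3 * x ^ 3 ≤ Real.exp (2 * x) := by
  have := Real.sum_le_exp_of_nonneg (x := 2 * x) (by linarith) 4
  refine le_trans (le_of_eq ?_) this
  simp only [Finset.sum_range_succ, Finset.sum_range_zero, Nat.factorial]
  push_cast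
  ring

lemma pp_nonneg {x : ℝ} (hx : 0 ≤ x) : 0 ≤ pp x := by unfold pp; positivity

lemma ww_ge {x : ℝ} (hx : 0 ≤ x) : Real.exp (-(2 * x)) * pp x ≤ ww x := by
  have h1 := exp_aux hx
  have h2 : Real.exp (-(2 * x)) * Real.exp (2 * x) = 1 := by
    rw [← Real.exp_add, neg_add_cancel, Real.exp_zero]
  have h3 := Real.exp_pos (-(2 * x))
  have hx3 : 0 ≤ x ^ 3 := by positivity
  have h4 : pp x + (5 / 16 + x / 2) ≤ 11 / 32 * Real.exp (2 * x) := by
    unfold pp
    nlinarith [sq_nonneg x]
  have h5 : Real.exp (-(2 * x)) * (pp x + (5 / 16 + x / 2)) ≤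
      Real.exp (-(2 * x)) * (11 / 32 * Real.exp (2 * x)) := by gcongr
  have h6 : Real.exp (-(2 * x)) * (11 / 32 * Real.exp (2 * x)) = 11 / 32 := by
    linear_combination (11 / 32) * h2
  unfold ww
  linarith

lemma super_ineq' {x : ℝ} (hx : 0 ≤ x) : 2 * ww x + 2 * Real.exp (-(2 * x)) * pp x ≤ 1 := by
  have h := super_ineq (α := 1) one_pos hx
  unfold WW UU at h
  have h3 := Real.exp_pos (-(2 * x))
  have h4 : Real.exp (-(2 * x)) * pp x ≤ Real.exp (-(2 * x)) * (1 / 16 + x / 8 + x ^ 2 / 2) := by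
    unfold pp
    gcongr
    norm_num
  unfold ww
  linarith

/-- the comparison principle for the cooperative system -/
lemma compare' {u v v' w : ℝ → ℝ} {α b : ℝ} (hα : 0 < α) (hb : 0 ≤ b)
    (hu : ∀ x, 0 ≤ x → HasDerivAt u (v x) x) (hv : ∀ x, 0 ≤ x → HasDerivAt v (v' x) x)
    (hw : ∀ x, 0 ≤ x → HasDerivAt w (Real.exp (-(2 * x)) * v x) x)
    (hv' : ∀ x, 0 ≤ x → v' x ≤ 2 * w x + 2 * Real.exp (-(2 * x)) * u x + b ^ 2 * u x)
    (h0 : u 0 < α / 64) (h1 : v 0 < α / 8) (h2 : w 0 < α / 32) {x : ℝ} (hx : 0 ≤ x) :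
    u x ≤ α * (Real.exp (b * x) * pp x) := by
  have hE : ∀ x : ℝ, HasDerivAt (fun x : ℝ => Real.exp (b * x)) (Real.exp (b * x) * (b * 1)) x :=
    fun x => ((hasDerivAt_id x).const_mul b).exp
  set U : ℝ → ℝ := fun x => α * (Real.exp (b * x) * pp x) with hU
  set V : ℝ → ℝ := fun x => α * (Real.exp (b * x) * ((1 / 8 + x) + b * pp x)) with hV
  set W : ℝ → ℝ := fun x => α * (Real.exp (b * x) * ww x) with hW
  have dU : ∀ x, HasDerivAt U (V x) x := fun x => by
    have h := ((hE x).mul (hasDeriv_pp x)).const_mul α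
    convert! h using 1
    rw [hV]
    ring
  have dV : ∀ x, HasDerivAt V (α * (Real.exp (b * x) * (1 + 2 * b * (1 / 8 + x) + b ^ 2 * pp x))) x :=
    fun x => by
    have h := ((hE x).mul (((hasDerivAt_id x).const_add (1 / 8 : ℝ)).add
      ((hasDeriv_pp x).const_mul b))).const_mul α
    convert! h using 1
    simp only [Pi.add_apply, id]
    ring
  have dW : ∀ x, HasDerivAt W
      (α * (Real.exp (b * x) * (Real.exp (-(2 * x)) * (1 / 8 + x) + b * ww x))) x := fun x => by
    have h := ((hE x).mul (hasDeriv_ww x)).const_mul α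
    convert! h using 1
    ring
  have dp : ∀ x, 0 ≤ x → HasDerivAt (fun x => U x - u x) (V x - v x) x := fun x hx =>
    (dU x).sub (hu x hx)
  have dq : ∀ x, 0 ≤ x → HasDerivAt (fun x => V x - v x)
      (α * (Real.exp (b * x) * (1 + 2 * b * (1 / 8 + x) + b ^ 2 * pp x)) - v' x) x := fun x hx =>
    (dV x).sub (hv x hx)
  have dr : ∀ x, 0 ≤ x → HasDerivAt (fun x => W x - w x)
      (α * (Real.exp (b * x) * (Real.exp (-(2 * x)) * (1 / 8 + x) + b * ww x)) -
        Real.exp (-(2 * x)) * v x) x := fun x hx =>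
    (dW x).sub (hw x hx)
  have p0 : 0 < U 0 - u 0 := by
    simp only [hU, pp, mul_zero, Real.exp_zero]
    norm_num
    linarith
  have q0 : 0 < V 0 - v 0 := by
    have h3 : α / 8 ≤ V 0 := by
      simp only [hV, pp, mul_zero, Real.exp_zero]
      nlinarith [mul_nonneg hα.le hb]
    linarith
  have r0 : 0 < W 0 - w 0 := by
    simp only [hW, ww, mul_zero, neg_zero, Real.exp_zero]
    norm_num
    linarith
  -- monotonicity as long as `q` is positive
  have mp : ∀ y, 0 ≤ y → (∀ s ∈ Ioo 0 y, 0 < V s - v s) →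
      U 0 - u 0 ≤ U y - u y ∧ W 0 - w 0 ≤ W y - w y := by
    intro y hy hq
    constructor
    · refine monotoneOn_of_deriv_nonneg (convex_Icc 0 y)
        (fun s hs => (dp s hs.1).continuousAt.continuousWithinAt)
        (fun s hs => ?_) (fun s hs => ?_) (left_mem_Icc.2 hy) (right_mem_Icc.2 hy) hy
      · rw [interior_Icc] at hs
        exact (dp s hs.1.le).differentiableAt.differentiableWithinAt
      · rw [interior_Icc] at hs
        rw [(dp s hs.1.le).deriv]
        exact (hq s hs).le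
    · refine monotoneOn_of_deriv_nonneg (convex_Icc 0 y)
        (fun s hs => (dr s hs.1).continuousAt.continuousWithinAt)
        (fun s hs => ?_) (fun s hs => ?_) (left_mem_Icc.2 hy) (right_mem_Icc.2 hy) hy
      · rw [interior_Icc] at hs
        exact (dr s hs.1.le).differentiableAt.differentiableWithinAt
      · rw [interior_Icc] at hs
        rw [(dr s hs.1.le).deriv]
        have g1 := hq s hs
        have g2 := ww_ge hs.1.le
        have g3 := Real.exp_pos (-(2 * s))
        have g4 := Real.exp_pos (b * s)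
        have g5 : Real.exp (-(2 * s)) * V s ≤
            α * (Real.exp (b * s) * (Real.exp (-(2 * s)) * (1 / 8 + s) + b * ww s)) := by
          have g6 : b * (Real.exp (-(2 * s)) * pp s) ≤ b * ww s := by gcongr
          calc Real.exp (-(2 * s)) * V s = α * (Real.exp (b * s) *
                (Real.exp (-(2 * s)) * (1 / 8 + s) + b * (Real.exp (-(2 * s)) * pp s))) := by
                rw [hV]
                ring
            _ ≤ _ := by gcongr
        have g7 : Real.exp (-(2 * s)) * v s ≤ Real.exp (-(2 * s)) * V s := by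
          gcongr
          linarith
        linarith
  -- `q` stays positive
  have hq : ∀ y, 0 ≤ y → 0 < V y - v y := by
    by_contra hcon
    push Not at hcon
    obtain ⟨X, hX, hqX⟩ := hcon
    set S : Set ℝ := Icc 0 X ∩ {y | V y - v y ≤ 0} with hS
    have hSc : IsCompact S := by
      refine IsCompact.of_isClosed_subset isCompact_Icc ?_ inter_subset_left
      have hc : ContinuousOn (fun y => V y - v y) (Icc 0 X) := fun s hs =>
        (dq s hs.1).continuousAt.continuousWithinAt
      exact hc.preimage_isClosed_of_isClosed isClosed_Icc isClosed_Iic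
    have hSn : S.Nonempty := ⟨X, ⟨hX, le_rfl⟩, hqX⟩
    obtain ⟨y, hyS, hymin⟩ := hSc.exists_isLeast hSn
    have hy0 : 0 ≤ y := hyS.1.1
    have hbelow : ∀ s ∈ Ico 0 y, 0 < V s - v s := by
      intro s hs
      by_contra h
      have : s ∈ S := ⟨⟨hs.1, hs.2.le.trans hyS.1.2⟩, not_lt.1 h⟩
      exact absurd (hymin this) (not_le.2 hs.2)
    have hmono : V 0 - v 0 ≤ V y - v y := by
      refine monotoneOn_of_deriv_nonneg (convex_Icc 0 y)
        (fun s hs => (dq s hs.1).continuousAt.continuousWithinAt)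
        (fun s hs => ?_) (fun s hs => ?_) (left_mem_Icc.2 hy0) (right_mem_Icc.2 hy0) hy0
      · rw [interior_Icc] at hs
        exact (dq s hs.1.le).differentiableAt.differentiableWithinAt
      · rw [interior_Icc] at hs
        rw [(dq s hs.1.le).deriv]
        obtain ⟨a1, a2⟩ := mp s hs.1.le fun s' hs' => hbelow s' ⟨hs'.1.le, hs'.2.trans hs.2⟩
        have a3 := hv' s hs.1.le
        have a4 := super_ineq' hs.1.le
        have a5 : 0 ≤ (2 * Real.exp (-(2 * s)) + b ^ 2) * (U s - u s) :=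
          mul_nonneg (by positivity) (by linarith)
        have a6 : 0 < α * Real.exp (b * s) := by positivity
        have a7 : 2 * W s + 2 * Real.exp (-(2 * s)) * U s + b ^ 2 * U s ≤
            α * (Real.exp (b * s) * (1 + 2 * b * (1 / 8 + s) + b ^ 2 * pp s)) := by
          have a8 : α * Real.exp (b * s) * (2 * ww s + 2 * Real.exp (-(2 * s)) * pp s) ≤
              α * Real.exp (b * s) * 1 := by gcongr
          have a9 : 0 ≤ α * Real.exp (b * s) * (2 * b * (1 / 8 + s)) := by
            have := hs.1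
            positivity
          rw [hU, hW]
          simp only
          linarith
        linarith
    have h5 : V y - v y ≤ 0 := hyS.2
    linarith
  have := (mp x hx fun s hs => hq s hs.1.le).1
  have h9 : u x ≤ U x := by linarith
  exact h9

variable {N : ℕ} {t : ℝ}

/-- differentiation of the sums -/
lemma hasDeriv_DZ (k : ℕ) (ht : 0 < t) (p q : ℍ) :
    HasDerivAt (fun t => DZ N k t p q) (-DZ N (k + 1) t p q) t := by
  have hu : Summable fun γ : Gamma N => dz (k + 1) (t / 2) p q γ := dz_summable _ (half_pos ht) p q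
  have h := hasDerivAt_tsum_of_isPreconnected (𝕜 := ℝ) (F := ℝ) (u := fun γ : Gamma N =>
      dz (k + 1) (t / 2) p q γ) (g := fun (γ : Gamma N) (s : ℝ) => dz k s p q γ)
    (g' := fun (γ : Gamma N) (s : ℝ) => -dz (k + 1) s p q γ) (t := Ioi (t / 2)) (y₀ := t) (y := t)
    hu isOpen_Ioi (convex_Ioi _).isPreconnected
    (fun γ s hs => by
      unfold dz
      rw [wk_succ]
      have h3 : HasDerivAt (fun s : ℝ => Real.exp (-(s * mz p ((γ : SL(2, ℤ)) • q))))
          (Real.exp (-(s * mz p ((γ : SL(2, ℤ)) • q))) * (-(1 * mz p ((γ : SL(2, ℤ)) • q)))) s :=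
        ((hasDerivAt_id s).mul_const _).neg.exp
      have h4 := h3.const_mul (wk k (mz p ((γ : SL(2, ℤ)) • q)))
      convert! h4 using 1
      ring)
    (fun γ s hs => by
      rw [norm_neg, Real.norm_of_nonneg (dz_nonneg _ _ _ _ _)]
      unfold dz
      have h1 := wk_nonneg (k + 1) (mz_pos p ((γ : SL(2, ℤ)) • q))
      have h2 := mz_pos p ((γ : SL(2, ℤ)) • q)
      have h3 : t / 2 < s := hs
      gcongr)
    (by simp only [mem_Ioi]; linarith) (dz_summable k ht p q) (by simp only [mem_Ioi]; linarith)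
  rw [tsum_neg] at h
  exact h

/-- its derivative -/
def az1 (N : ℕ) (t : ℝ) (p : ℍ) : ℝ :=
  -DZ N 3 t p p + 12 / idx N * (Real.exp (-(2 * t)) * (2 * t⁻¹ + (t ^ 2)⁻¹))
/-- its second derivative -/
def az2 (N : ℕ) (t : ℝ) (p : ℍ) : ℝ :=
  DZ N 4 t p p - 12 / idx N * (Real.exp (-(2 * t)) * (4 * t⁻¹ + 4 * (t ^ 2)⁻¹ + 2 * (t ^ 3)⁻¹))
/-- the energy -/
def ez (N : ℕ) (t : ℝ) (p : ℍ) : ℝ :=
  t ^ 2 * DZ N 2 t p p + 2 * t * DZ N 1 t p p + 2 * DZ N 0 t p p -
    12 / idx N * (Real.exp (-(2 * t)) * (t + 1))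

lemma hasDeriv_az (ht : 0 < t) (p : ℍ) : HasDerivAt (fun t => az N t p) (az1 N t p) t := by
  have h1 := (hasDeriv_DZ (N := N) 2 ht p p).sub
    (((hd_e2 t).mul (hasDerivAt_inv ht.ne')).const_mul (12 / idx N))
  unfold az az1 MT
  convert! h1 using 1
  ring

lemma hasDeriv_az1 (ht : 0 < t) (p : ℍ) : HasDerivAt (fun t => az1 N t p) (az2 N t p) t := by
  have h1 := (hasDeriv_DZ (N := N) 3 ht p p).neg.add
    (((hd_e2 t).mul (((hasDerivAt_inv ht.ne').const_mul 2).add (hd_i2 ht))).const_mul (12 / idx N))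
  unfold az1 az2
  convert! h1 using 1
  simp only [Pi.add_apply]
  ring

lemma hasDeriv_ez (ht : 0 < t) (p : ℍ) : HasDerivAt (fun t => ez N t p) (t ^ 2 * az1 N t p) t := by
  have h2 := (hasDerivAt_pow 2 t).mul (hasDeriv_DZ (N := N) 2 ht p p)
  have h1 := ((hasDerivAt_id t).const_mul 2).mul (hasDeriv_DZ (N := N) 1 ht p p)
  have h0 := (hasDeriv_DZ (N := N) 0 ht p p).const_mul 2
  have h3 := ((hd_e2 t).mul ((hasDerivAt_id t).add_const 1)).const_mul (12 / idx N)
  have h := ((h2.add h1).add h0).sub h3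
  unfold ez az1
  convert! h using 1
  simp only [id]
  field_simp
  norm_num
  ring

/-- the differential inequality -/
lemma twoZ_ode [NeZero N] {ν₀ : ℝ} (ht : 0 < t) (p : ℍ) (h : TwoZ N ν₀ t p) :
    t * az1 N t p + t ^ 2 * az2 N t p ≤
      2 * ez N t p + 2 * t ^ 2 * az N t p + (2 * ν₀) ^ 2 * az N t p := by
  have hi := idx_pos (N := N)
  unfold TwoZ NU at h
  have e1 : 2 * ez N t p + 2 * t ^ 2 * az N t p - (t * az1 N t p + t ^ 2 * az2 N t p) =
      4 * (t ^ 2 * DZ N 2 t p p + t * DZ N 1 t p p + DZ N 0 t p p + DZ N 2 t p p / 4 -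
        (t ^ 2 * DZ N 4 t p p - t * DZ N 3 t p p) / 4) - az N t p := by
    unfold ez az az1 az2 MT
    field_simp
    ring
  linarith

/-- the sums over the full modular group -/
def KZ (k : ℕ) (p : ℍ) : ℝ := ∑' γ : SL(2, ℤ), dz k 1 p p γ

lemma KZ_nonneg (k : ℕ) (p : ℍ) : 0 ≤ KZ k p := tsum_nonneg fun γ => dz_nonneg k 1 p p γ

/-- the constant -/
def αz (p : ℍ) : ℝ := 64 * (KZ 2 p + 2 * KZ 1 p + 2 * KZ 0 p + KZ 3 p + 1)

lemma αz_pos (p : ℍ) : 0 < αz p := by
  unfold αz
  have := KZ_nonneg 0 p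
  have := KZ_nonneg 1 p
  have := KZ_nonneg 2 p
  have := KZ_nonneg 3 p
  positivity

lemma az_le [NeZero N] {ν₀ : ℝ} (hν₀ : 0 ≤ ν₀) (p : ℍ)
    (h : ∀ t, 0 < t → t ≤ 1 → TwoZ N ν₀ t p) (ht : 0 < t) (ht1 : t ≤ 1) :
    az N t p ≤ αz p * (Real.exp (2 * ν₀ * (-Real.log t)) * pp (-Real.log t)) := by
  have hx : 0 ≤ -Real.log t := by
    have := Real.log_nonpos ht.le ht1
    linarith
  have hi := idx_pos (N := N)
  have hκ : 0 < 12 / idx N := by positivity
  have k0 := KZ_nonneg 0 p
  have k1 := KZ_nonneg 1 p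
  have k2 := KZ_nonneg 2 p
  have k3 := KZ_nonneg 3 p
  have d0 := DZ_le (N := N) 0 one_pos p p
  have d1 := DZ_le (N := N) 1 one_pos p p
  have d2 := DZ_le (N := N) 2 one_pos p p
  have dn3 := DZ_nonneg (N := N) (t := 1) 3 p p
  have hexp : ∀ x : ℝ, HasDerivAt (fun x : ℝ => Real.exp (-x)) (-Real.exp (-x)) x := by
    intro x
    have h3 : HasDerivAt (fun x : ℝ => Real.exp (-x)) (Real.exp (-x) * (-1)) x :=
      (hasDerivAt_id x).neg.exp
    convert! h3 using 1
    ring
  have he2 : ∀ x : ℝ, Real.exp (-(2 * x)) = Real.exp (-x) ^ 2 := by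
    intro x
    rw [← Real.exp_nat_mul]
    congr 1
    push_cast
    ring
  have d3 := DZ_le (N := N) 3 one_pos p p
  have hmain := compare' (u := fun x => az N (Real.exp (-x)) p)
    (v := fun x => -(Real.exp (-x) * az1 N (Real.exp (-x)) p))
    (v' := fun x => Real.exp (-x) * az1 N (Real.exp (-x)) p +
      Real.exp (-x) ^ 2 * az2 N (Real.exp (-x)) p)
    (w := fun x => ez N (Real.exp (-x)) p) (α := αz p) (b := 2 * ν₀) (αz_pos p) (by positivity)
    (fun x _ => by
      have := (hasDeriv_az (N := N) (Real.exp_pos (-x)) p).comp x (hexp x)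
      convert! this using 1
      ring)
    (fun x _ => by
      have := ((hexp x).mul ((hasDeriv_az1 (N := N) (Real.exp_pos (-x)) p).comp x (hexp x))).neg
      convert! this using 1
      simp only [Function.comp_apply]
      ring)
    (fun x _ => by
      have := (hasDeriv_ez (N := N) (Real.exp_pos (-x)) p).comp x (hexp x)
      convert! this using 1
      rw [he2]
      ring)
    (fun x hx => by
      rw [he2]
      refine twoZ_ode (Real.exp_pos _) p (h _ (Real.exp_pos _) ?_)
      rw [Real.exp_le_one_iff]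
      linarith)
    (by
      simp only [neg_zero, Real.exp_zero]
      unfold az MT
      have h5 : 0 < 12 / idx N * (Real.exp (-(2 * 1)) * (1 : ℝ)⁻¹) := by positivity
      unfold αz
      unfold KZ at *
      linarith)
    (by
      simp only [neg_zero, Real.exp_zero, one_mul]
      unfold az1
      have h5 : 0 < 12 / idx N * (Real.exp (-(2 * 1)) * (2 * (1 : ℝ)⁻¹ + ((1 : ℝ) ^ 2)⁻¹)) := by
        positivity
      unfold αz
      unfold KZ at *
      linarith)
    (by
      simp only [neg_zero, Real.exp_zero]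
      unfold ez
      have h5 : 0 < 12 / idx N * (Real.exp (-(2 * 1)) * ((1 : ℝ) + 1)) := by positivity
      unfold αz
      unfold KZ at *
      linarith) hx
  simp only [neg_neg, Real.exp_log ht] at hmain
  exact hmain

/-- the uniform bound for the variance -/
theorem az_le' [NeZero N] {ν₀ : ℝ} (hν₀ : 0 ≤ ν₀) (p : ℍ)
    (h : ∀ t, 0 < t → t ≤ 1 → TwoZ N ν₀ t p) {T : ℝ} (hT : 1 ≤ T) :
    az N (1 / T) p ≤ αz p * (T ^ (2 * ν₀) * (1 + Real.log T) ^ 2) := by
  have hT0 : 0 < T := by linarith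
  have h1 := az_le hν₀ p h (t := 1 / T) (by positivity) (by rw [div_le_one hT0]; exact hT)
  have hlog : -Real.log (1 / T) = Real.log T := by rw [one_div, Real.log_inv, neg_neg]
  rw [hlog] at h1
  have hL : 0 ≤ Real.log T := Real.log_nonneg hT
  have h2 : Real.exp (2 * ν₀ * Real.log T) = T ^ (2 * ν₀) := by
    rw [Real.rpow_def_of_pos hT0]
    congr 1
    ring
  rw [h2] at h1
  refine h1.trans ?_
  have := αz_pos p
  have h3 : pp (Real.log T) ≤ (1 + Real.log T) ^ 2 := by
    unfold pp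
    nlinarith
  gcongr

end

end Pool.Agent.H75.SG
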