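import Pool.Agent.H75.SG.Fin

/-! # The base point `i` -/

set_option autoImplicit false

open UpperHalfPlane MeasureTheory Metric Filter Set ModularGroup CongruenceSubgroup
open scoped MatrixGroups ENNReal Modular Topology NNReal ComplexConjugate

namespace Pool.Agent.H75.SG

open Pool.Agent.H369R2 Pool.Agent.N799.DT Pool.Agent.N799.DT.OrthAux Pool.Agent.H75.SE

noncomputable section

variable {N : ℕ} {t : ℝ}

lemma mz_I (A : SL(2, ℤ)) : mz I (A • (I : ℍ)) = mm A := by rw [mz_comm, mz_smul]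

lemma dz_I (k : ℕ) (t : ℝ) (A : SL(2, ℤ)) : dz k t I I A = dt k t A := by
  unfold dz dt
  rw [mz_I]

lemma DZ_I (k : ℕ) (t : ℝ) : DZ N k t I I = SE.DD N k t := by
  unfold DZ SE.DD
  simp only [dz_I]

lemma az_I (t : ℝ) : az N t I = aa N t := by
  unfold az aa MT
  rw [DZ_I]

/-- the estimate in the residue classes -/
theorem three_I {N : ℕ} [NeZero N] {ν₀ : ℝ} (hν₀ : 0 ≤ ν₀)
    (h : ∀ t : ℝ, 0 < t → t ≤ 1 → TwoZ N ν₀ t I) (B : SL(2, ℤ)) {T : ℝ} (hT : 1 ≤ T) :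
    |DB N 2 (1 / T) B - 12 * T / idx N| ≤
      (αz I + 24) * (T ^ (2 * ν₀) * (1 + Real.log T) ^ 2) := by
  have hT0 : 0 < T := by linarith
  have hL : 0 ≤ Real.log T := Real.log_nonneg hT
  have h1 := az_le' hν₀ I h hT
  rw [az_I] at h1
  set X : ℝ := T ^ (2 * ν₀) * (1 + Real.log T) ^ 2 with hX
  have hX1 : 1 ≤ X := by
    have e1 : 1 ≤ T ^ (2 * ν₀) := Real.one_le_rpow hT (by positivity)
    have e2 : 1 ≤ (1 + Real.log T) ^ 2 := by nlinarith
    calc (1 : ℝ) = 1 * 1 := by ring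
      _ ≤ X := by rw [hX]; gcongr
  have h2 := residue (N := N) (t := 1 / T) (by positivity) B
  have h5 := MT_le (N := N) hT
  have h6 : MT N (1 / T) = 12 / idx N * (Real.exp (-(2 * (1 / T))) * (1 / T)⁻¹) := rfl
  rw [← h6] at h2
  calc |DB N 2 (1 / T) B - 12 * T / idx N| ≤ |DB N 2 (1 / T) B - MT N (1 / T)| +
        |MT N (1 / T) - 12 * T / idx N| := abs_sub_le _ _ _
    _ ≤ αz I * X + 24 * X := by
        have : (24 : ℝ) ≤ 24 * X := by linarith
        linarith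
    _ = _ := by ring

/-- the sum of the elementary inequality -/
lemma tsum_I (ht : 0 < t) (l : ℝ) :
    ∑' A : Gamma N, Real.exp (-(t * mm A)) *
      ((t ^ 2 * mm A - t) / 4 - t ^ 2 / mm A - t / mm A ^ 2 - 1 / mm A ^ 3 - (1 / 4 - l) / mm A) =
    l * DZ N 2 t I I - NU N t I := by
  have h (k : ℕ) := (dt_summable (N := N) k ht)
  have e : ∀ A : SL(2, ℤ), Real.exp (-(t * mm A)) *
      ((t ^ 2 * mm A - t) / 4 - t ^ 2 / mm A - t / mm A ^ 2 - 1 / mm A ^ 3 - (1 / 4 - l) / mm A) =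
      t ^ 2 / 4 * dt 4 t A - t / 4 * dt 3 t A - t ^ 2 * dt 2 t A - t * dt 1 t A - dt 0 t A -
        (1 / 4 - l) * dt 2 t A := by
    intro A
    unfold dt wk
    have := mm_pos A
    field_simp
  simp only [e]
  have s4 := (h 4).mul_left (t ^ 2 / 4)
  have s3 := (h 3).mul_left (t / 4)
  have s2 := (h 2).mul_left (t ^ 2)
  have s1 := (h 1).mul_left t
  have s0 := h 0
  have s2' := (h 2).mul_left (1 / 4 - l)
  rw [((((s4.sub s3).sub s2).sub s1).sub s0).tsum_sub s2', (((s4.sub s3).sub s2).sub s1).tsum_sub s0,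
    ((s4.sub s3).sub s2).tsum_sub s1, (s4.sub s3).tsum_sub s2, s4.tsum_sub s3]
  simp only [tsum_mul_left]
  unfold NU
  simp only [DZ_I]
  unfold SE.DD
  ring

lemma twoZ_I_iff [NeZero N] (ht : 0 < t) {ν₀ l : ℝ} (hl : l = 1 / 4 - ν₀ ^ 2) :
    TwoZ N ν₀ t I ↔ l * DZ N 2 t I I - NU N t I ≤ 12 * l * Real.exp (-(2 * t)) / (t * idx N) := by
  have hi := idx_pos (N := N)
  have h1 : 12 * l * Real.exp (-(2 * t)) / (t * idx N) = l * MT N t := by
    unfold MT
    field_simp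
  unfold TwoZ az
  rw [h1, ← hl]
  constructor
  · intro h
    linarith
  · intro h
    linarith

end

end Pool.Agent.H75.SG
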