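import Pool.Agent.H75.SG.Ker

/-! # The automorphic kernels as vectors -/

set_option autoImplicit false

open UpperHalfPlane MeasureTheory Metric Filter Set ModularGroup CongruenceSubgroup
open scoped MatrixGroups ENNReal Modular Topology NNReal ComplexConjugate

namespace Pool.Agent.H75.SG

open Pool.Agent.H369R2 Pool.Agent.N799.DT Pool.Agent.N799.DT.OrthAux Pool.Agent.H75.SE

noncomputable section

variable {N : ℕ} {t : ℝ}

/-- the terms -/
def dz (k : ℕ) (t : ℝ) (p q : ℍ) (γ : SL(2, ℤ)) : ℝ :=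
  wk k (mz p (γ • q)) * Real.exp (-(t * mz p (γ • q)))

lemma dz_nonneg (k : ℕ) (t : ℝ) (p q : ℍ) (γ : SL(2, ℤ)) : 0 ≤ dz k t p q γ :=
  mul_nonneg (wk_nonneg k (mz_pos _ _)) (Real.exp_pos _).le

lemma dz_summable' (k : ℕ) (ht : 0 < t) (p q : ℍ) : Summable (dz k t p q) := by
  refine Summable.of_nonneg_of_le (dz_nonneg k t p q) (fun γ => ?_) (summable_pow_mz p q ht k)
  unfold dz
  have h1 : 1 ≤ mz p (γ • q) := by linarith [mz_two_le p (γ • q)]
  have := wk_le k h1
  gcongr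

lemma dz_summable (k : ℕ) (ht : 0 < t) (p q : ℍ) : Summable fun γ : Gamma N => dz k t p q γ :=
  (dz_summable' k ht p q).comp_injective Subtype.val_injective

/-- the sums -/
def DZ (N k : ℕ) (t : ℝ) (p q : ℍ) : ℝ := ∑' γ : Gamma N, dz k t p q γ

lemma DZ_nonneg (k : ℕ) (p q : ℍ) : 0 ≤ DZ N k t p q := tsum_nonneg fun γ => dz_nonneg k t p q γ

lemma DZ_le (k : ℕ) (ht : 0 < t) (p q : ℍ) : DZ N k t p q ≤ ∑' γ : SL(2, ℤ), dz k t p q γ := by
  unfold DZ
  have h := (dz_summable' k ht p q)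
  exact Summable.tsum_le_tsum_of_inj (fun γ : Gamma N => (γ : SL(2, ℤ))) Subtype.val_injective
    (fun γ _ => dz_nonneg k t p q γ) (fun γ => le_rfl) (dz_summable k ht p q) h

lemma gt_dz (ht : 0 < t) (p q : ℍ) (γ : SL(2, ℤ)) :
    gt t (mz p (γ • q)) = 2 * Real.pi / t * dz 2 t p q γ := by
  unfold gt dz wk
  have := mz_pos p (γ • q)
  field_simp

lemma summable_gtz (ht : 0 < t) (p q : ℍ) :
    Summable fun γ : Gamma N => gt t (mz p ((γ : SL(2, ℤ)) • q)) := by
  simp only [gt_dz ht]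
  exact (dz_summable 2 ht p q).mul_left _

/-- inner products of the kernels -/
def IP (N : ℕ) (t : ℝ) (p q : ℍ) : ℝ := 4 * Real.pi / t * DZ N 2 t p q

lemma IP_eq (ht : 0 < t) (p q : ℍ) :
    IP N t p q = 2 * ∑' γ : Gamma N, gt t (mz p ((γ : SL(2, ℤ)) • q)) := by
  unfold IP DZ
  simp only [gt_dz ht]
  rw [tsum_mul_left]
  ring

lemma IP_nonneg (ht : 0 < t) (p q : ℍ) : 0 ≤ IP N t p q := by
  have := DZ_nonneg (N := N) (t := t) 2 p q
  have := Real.pi_pos
  unfold IP
  positivity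

lemma lint_ph_mul' (ht : 0 < t) (p q : ℍ) :
    ∫⁻ w, ENNReal.ofReal (ph N t q w) * ENNReal.ofReal (ph N t p w) ∂(nu N) =
      ENNReal.ofReal (IP N t p q) := by
  rw [lint_ph_mul ht, ← ENNReal.ofReal_tsum_of_nonneg (fun γ => gt_nonneg ht (mz_pos _ _))
    (summable_gtz ht p q), IP_eq ht]
  have e2 : (2 : ℝ≥0∞) = ENNReal.ofReal 2 := by simp
  rw [e2, ← ENNReal.ofReal_mul (by norm_num)]

/-- the automorphic kernel as a vector -/
def PK (N : ℕ) (t : ℝ) (ht : 0 < t) (p : ℍ) : LW N :=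
  ⟨fun w => (ph N t p w : ℂ), Complex.continuous_ofReal.comp (ph_cont ht p),
    fun δ hδ z => by simp only [ph_inv p δ hδ], by
    have h : ∀ w : ℍ, ‖(ph N t p w : ℂ)‖ₑ ^ 2 =
        ENNReal.ofReal (ph N t p w) * ENNReal.ofReal (ph N t p w) := by
      intro w
      rw [enorm_sq_eq, Complex.norm_real, Real.norm_of_nonneg (ph_nonneg p w),
        ← ENNReal.ofReal_mul (ph_nonneg p w), sq]
    simp only [h]
    rw [lint_ph_mul' ht]
    exact ENNReal.ofReal_ne_top⟩

lemma PK_apply (ht : 0 < t) (p w : ℍ) : (PK N t ht p : ℍ → ℂ) w = (ph N t p w : ℂ) := rfl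

lemma inner_PK (ht : 0 < t) (p q : ℍ) :
    inner ℂ (PK N t ht q) (PK N t ht p) = (IP N t p q : ℂ) := by
  rw [inner_real (f := ph N t q) (g := ph N t p) (fun z => rfl) fun z => rfl]
  congr 1
  have hcc : Continuous fun w => ph N t q w * ph N t p w := (ph_cont ht q).mul (ph_cont ht p)
  rw [integral_toReal hcc fun z => mul_nonneg (ph_nonneg _ _) (ph_nonneg _ _)]
  have h1 : ∀ w, ENNReal.ofReal (ph N t q w * ph N t p w) =
      ENNReal.ofReal (ph N t q w) * ENNReal.ofReal (ph N t p w) := fun w =>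
    ENNReal.ofReal_mul (ph_nonneg _ _)
  simp only [h1]
  rw [lint_ph_mul' ht, ENNReal.toReal_ofReal (IP_nonneg ht p q)]

lemma inner_one_PK [NeZero N] (ht : 0 < t) (p : ℍ) :
    inner ℂ (one N) (PK N t ht p) = (P1 t : ℂ) := by
  rw [inner_real (f := fun _ => 1) (g := ph N t p) (fun z => by simp [one]) fun z => rfl]
  simp only [one_mul]
  have hpi := Real.pi_pos
  rw [integral_toReal (ph_cont ht p) (ph_nonneg p), lint_ph ht, ENNReal.toReal_ofReal (by positivity)]
  rfl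

/-- the averages of the kernel function -/
def Az (R t : ℝ) (p v : ℍ) : ℝ := Av R (fun w => gt t (mz w p)) v

lemma Az_eq (R t : ℝ) (p v : ℍ) : Az R t p v = Ag R t ((aff p)⁻¹ • v) := by
  unfold Az Ag Av
  congr 1
  have h := int_ball_smul_real R (aff p) (fun w => gt t (mz w p)) ((aff p)⁻¹ • v)
  rw [smul_inv_smul] at h
  rw [h]
  congr 1
  ext w
  have h1 : mz (aff p • w) p = mz w I := by
    unfold mz
    have h2 := dist_smul (aff p) w I
    rw [aff_I] at h2
    rw [h2]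
  rw [h1]

lemma mz_aff (p v : ℍ) : mz ((aff p)⁻¹ • v) I = mz v p := by
  unfold mz
  have h2 := dist_smul (aff p) ((aff p)⁻¹ • v) I
  rw [aff_I, smul_inv_smul] at h2
  rw [h2]

lemma cont_gtz (ht : 0 < t) (p : ℍ) : Continuous fun v : ℍ => gt t (mz v p) := by
  have h1 : Continuous fun v : ℍ => mz v p := by
    unfold mz
    have h1 : Continuous fun v : ℍ => dist v p := continuous_id.dist continuous_const
    exact (continuous_const.add (continuous_const.mul (Real.continuous_cosh.comp h1))).sqrt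
  unfold gt
  refine Continuous.div ?_ (continuous_const.mul h1) fun v => ?_
  · exact continuous_const.mul (Real.continuous_exp.comp (continuous_const.mul h1).neg)
  · have := mz_pos v p
    positivity

lemma Az_nonneg (R : ℝ) (ht : 0 < t) (p v : ℍ) : 0 ≤ Az R t p v := by
  rw [Az_eq]
  exact Ag_nonneg R ht _

lemma ofReal_Az {R : ℝ} (hR : 0 < R) (ht : 0 < t) (p v : ℍ) :
    ENNReal.ofReal (Az R t p v) = Ap R (fun v => ENNReal.ofReal (gt t (mz v p))) v :=
  ofReal_Av' hR (cont_gtz ht p) (fun _ => gt_nonneg ht (mz_pos _ _)) v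

/-- the Rayleigh quotient of the kernel -/
def SZ (N : ℕ) (R t : ℝ) (p : ℍ) : ℝ := 2 * ∑' γ : Gamma N, Az R t p ((γ : SL(2, ℤ)) • p)

lemma inner_LA_PK {R : ℝ} (hR : 0 < R) (ht : 0 < t) (p : ℍ) :
    inner ℂ (LA N R hR (PK N t ht p)) (PK N t ht p) = (SZ N R t p : ℂ) := by
  have hA : ∀ z, (LA N R hR (PK N t ht p) : ℍ → ℂ) z = ((Av R (ph N t p) z : ℝ) : ℂ) := by
    intro z
    rw [LA_apply]
    unfold Av
    have : ∫ w in closedBall z R, (PK N t ht p : ℍ → ℂ) w =
        ((∫ w in closedBall z R, ph N t p w : ℝ) : ℂ) := by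
      rw [← integral_complex_ofReal]
      rfl
    rw [this, Complex.real_smul, smul_eq_mul]
    push_cast
    rfl
  have hc := ph_cont (N := N) ht p
  have hAc : Continuous (Av R (ph N t p)) := cont_Av hc
  have hA0 : ∀ z, 0 ≤ Av R (ph N t p) z := by
    intro z
    unfold Av
    have := bv_nonneg R
    exact smul_nonneg (by positivity) (integral_nonneg fun w => ph_nonneg p w)
  rw [inner_real hA fun z => PK_apply ht p z]
  congr 1
  have hmc : Continuous fun z => Av R (ph N t p) z * ph N t p z := hAc.mul hc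
  rw [integral_toReal hmc fun z => mul_nonneg (hA0 z) (ph_nonneg p z)]
  have h1 : ∀ z, ENNReal.ofReal (Av R (ph N t p) z * ph N t p z) =
      Ap R (fun v => ENNReal.ofReal (ph N t p v)) z * ENNReal.ofReal (ph N t p z) := by
    intro z
    rw [ENNReal.ofReal_mul (hA0 z), ofReal_Av' hR hc (ph_nonneg p)]
  simp only [h1]
  rw [lint_Ap_ph hR ht, ENNReal.toReal_mul, ENNReal.toReal_ofNat]
  unfold SZ
  congr 1
  simp only [← ofReal_Az hR ht]
  rw [ENNReal.tsum_toReal_eq fun γ => ENNReal.ofReal_ne_top]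
  congr 1
  ext γ
  rw [ENNReal.toReal_ofReal (Az_nonneg R ht p _)]

/-- the mean zero part of the kernel -/
def PP (N : ℕ) [NeZero N] (t : ℝ) (ht : 0 < t) (p : ℍ) : LW N :=
  PK N t ht p - ((P1 t / VN N : ℝ) : ℂ) • one N

lemma PP_mem [NeZero N] (ht : 0 < t) (p : ℍ) : PP N t ht p ∈ LZ N := by
  rw [mem_LZ]
  unfold PP
  rw [inner_sub_right, inner_smul_right, inner_one_PK, inner_one_one]
  have := (VN_pos (N := N)).ne'
  rw [← Complex.ofReal_mul, div_mul_cancel₀ _ this, sub_self]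

/-- the main term -/
def MT (N : ℕ) (t : ℝ) : ℝ := 12 / idx N * (Real.exp (-(2 * t)) * t⁻¹)

lemma P1_VN [NeZero N] (ht : 0 < t) : P1 t ^ 2 / VN N = 4 * Real.pi / t * MT N t := by
  rw [VN_eq]
  have hi := idx_pos (N := N)
  have hpi := Real.pi_pos
  unfold P1 MT
  have e2 : Real.exp (-t) ^ 2 = Real.exp (-(2 * t)) := by
    rw [← Real.exp_nat_mul]
    congr 1
    push_cast
    ring
  rw [← e2]
  field_simp
  ring

lemma inner_PP [NeZero N] (ht : 0 < t) (p q : ℍ) :
    inner ℂ (PP N t ht q) (PP N t ht p) = ((4 * Real.pi / t * (DZ N 2 t p q - MT N t) : ℝ) : ℂ) := by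
  have h0 : inner ℂ (one N) (PP N t ht p) = 0 := mem_LZ.1 (PP_mem ht p)
  have hV := (VN_pos (N := N)).ne'
  have h1 : inner ℂ (PP N t ht q) (PP N t ht p) = inner ℂ (PK N t ht q) (PP N t ht p) := by
    conv_lhs => rw [show PP N t ht q = PK N t ht q - ((P1 t / VN N : ℝ) : ℂ) • one N from rfl]
    rw [inner_sub_left, inner_smul_left, h0, mul_zero, sub_zero]
  rw [h1]
  unfold PP
  rw [inner_sub_right, inner_smul_right, inner_PK, ← inner_conj_symm, inner_one_PK,
    Complex.conj_ofReal, ← Complex.ofReal_mul, ← Complex.ofReal_sub]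
  congr 1
  have h2 : P1 t / VN N * P1 t = P1 t ^ 2 / VN N := by ring
  rw [h2, P1_VN ht]
  unfold IP
  ring

/-- the variance -/
def az (N : ℕ) (t : ℝ) (p : ℍ) : ℝ := DZ N 2 t p p - MT N t

lemma norm_PP [NeZero N] (ht : 0 < t) (p : ℍ) :
    ‖PP N t ht p‖ ^ 2 = 4 * Real.pi / t * az N t p := by
  have h7 : ((‖PP N t ht p‖ ^ 2 : ℝ) : ℂ) =
      ((4 * Real.pi / t * (DZ N 2 t p p - MT N t) : ℝ) : ℂ) := by
    rw [← inner_PP ht p p, inner_self_eq_norm_sq_to_K]
    push_cast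
    rfl
  unfold az
  exact_mod_cast h7

lemma az_nonneg [NeZero N] (ht : 0 < t) (p : ℍ) : 0 ≤ az N t p := by
  have h := norm_PP (N := N) ht p
  have h1 := sq_nonneg ‖PP N t ht p‖
  have hpi := Real.pi_pos
  rw [h] at h1
  exact nonneg_of_mul_nonneg_right h1 (by positivity)

/-- uniform distribution from the variances -/
theorem cross [NeZero N] (ht : 0 < t) (p q : ℍ) :
    (DZ N 2 t p q - MT N t) ^ 2 ≤ az N t p * az N t q := by
  have hpi := Real.pi_pos
  have hcs := norm_inner_le_norm (𝕜 := ℂ) (PP N t ht q) (PP N t ht p)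
  rw [inner_PP ht, Complex.norm_real, Real.norm_eq_abs] at hcs
  have h1 := pow_le_pow_left₀ (abs_nonneg _) hcs 2
  rw [sq_abs, mul_pow, mul_pow ‖PP N t ht q‖, norm_PP ht, norm_PP ht] at h1
  have h2 : (4 * Real.pi / t) ^ 2 * (DZ N 2 t p q - MT N t) ^ 2 ≤
      (4 * Real.pi / t) ^ 2 * (az N t p * az N t q) := by
    refine h1.trans (le_of_eq ?_)
    ring
  exact le_of_mul_le_mul_left h2 (by positivity)

lemma inner_LA_PP [NeZero N] {R : ℝ} (hR : 0 < R) (ht : 0 < t) (p : ℍ) :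
    (inner ℂ (LA N R hR (PP N t ht p)) (PP N t ht p)).re = SZ N R t p - P1 t ^ 2 / VN N := by
  have hV := (VN_pos (N := N)).ne'
  set c : ℝ := P1 t / VN N with hc
  have h1 : LA N R hR (PP N t ht p) = LA N R hR (PK N t ht p) - (c : ℂ) • one N := by
    unfold PP
    rw [map_sub, map_smul, LA_one]
  have h2 : inner ℂ (LA N R hR (PP N t ht p)) (PP N t ht p) =
      inner ℂ (LA N R hR (PP N t ht p)) (PK N t ht p) := by
    have h3 : inner ℂ (LA N R hR (PP N t ht p)) (one N) = 0 := by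
      rw [LA_symm, LA_one, ← inner_conj_symm, mem_LZ.1 (PP_mem ht p), map_zero]
    conv_lhs => rw [show PP N t ht p = PK N t ht p - (c : ℂ) • one N from rfl]
    rw [inner_sub_right, inner_smul_right]
    have h4 : LA N R hR (PK N t ht p - (c : ℂ) • one N) = LA N R hR (PP N t ht p) := rfl
    rw [h4, h3, mul_zero, sub_zero]
  rw [h2, h1, inner_sub_left, inner_smul_left, inner_LA_PK, inner_one_PK, Complex.conj_ofReal,
    ← Complex.ofReal_mul, ← Complex.ofReal_sub, Complex.ofReal_re]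
  rw [hc]
  field_simp

end

end Pool.Agent.H75.SG
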